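import Pool.Agent.P8H50.SS.Surf

/-!
Special sets over grids (helper50): the equations of the special sets.
-/

set_option autoImplicit false
set_option linter.overlappingInstances false

namespace Pool.Agent.P8H50.SS.SF

open Pool.Agent.Q103.SF
open FF Metric
open Pool.Agent.W602.GT
open Pool.Agent.Y221.PD
open Pool.Agent.Y221.BD (EntireCurve)
open Pool.Agent.Y216 (OnVar)
open Pool.Agent.TH466.QG (SubOf)

variable {M : ℕ} {K : Type} [Field K] [Algebra ℂ K] {x : Fin (M + 1) → K}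

theorem mero_of_entire {f : Fin (M + 1) → ℂ → ℂ} (hf : EntireCurve x f) :
    MeroMap x 1 (fun i t => f i (t 0)) := by
  obtain ⟨i, j, a, b, hab⟩ := hf.nonconst
  exact ⟨fun i => (hf.hol i).comp (by fun_prop), fun G hG hGx t => hf.mem G hG hGx _, i, j,
    fun _ => a, fun _ => b, hab⟩

theorem ent_eq (h : SpecialSets x) : entForms x = lowForms x := by
  ext G
  constructor
  · rintro ⟨hG, h1⟩
    refine ⟨hG, fun V hV => ?_⟩
    obtain ⟨f, hf, rfl⟩ := h.curves V hV
    exact ⟨hG, fun t _ => h1 f hf t⟩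
  · rintro ⟨hG, h1⟩
    exact ⟨hG, fun f hf t => (h1 _ (h.entire f hf)).2 t (Set.mem_univ t)⟩

theorem mero_eq (h : SpecialSets x) : meroForms x = lowForms x := by
  ext G
  constructor
  · rintro ⟨hG, h1⟩
    refine ⟨hG, fun V hV => ?_⟩
    obtain ⟨f, hf, rfl⟩ := h.curves V hV
    exact ⟨hG, fun t _ => h1 1 _ (mero_of_entire hf) fun _ => t⟩
  · rintro ⟨hG, h1⟩
    exact ⟨hG, fun g u hu t => (h1 _ (h.mero g u hu)).2 t (Set.mem_univ t)⟩

theorem ell_eq (hw : S_wei) (h : SpecialSets x) : ellForms x = lowForms x := by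
  ext G
  constructor
  · rintro ⟨hG, h1⟩
    refine ⟨hG, fun V hV => ?_⟩
    obtain ⟨E, _, _, _, v, hE, hv, hn, rfl⟩ := h.elliptic V hV
    exact ⟨hG, h1 E hE v hv hn⟩
  · rintro ⟨hG, h1⟩
    refine ⟨hG, fun E _ _ _ hE v hv hn => ?_⟩
    obtain ⟨f, hf, he⟩ := curve_of_ell hw hE hv hn
    have h2 := h1 _ (h.entire f hf)
    rw [he] at h2
    exact h2.2

theorem alg_eq (h : SpecialSets x) : algForms x = lowForms x := by
  ext G
  constructor
  · rintro ⟨hG, h1⟩
    refine ⟨hG, ?_⟩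
    rintro V ⟨L, _, _, _, v, hv, hgen, hc, rfl⟩
    have hne : v ≠ 0 := by
      obtain ⟨j, hj⟩ := hv.1
      intro h
      exact hj (congrFun h j)
    refine ⟨hG, h1 L 1 v ⟨hne, hgen, hv.2⟩ le_rfl (by
      rw [IsFF.trdeg (k := ℂ) (K := L)]
      simp) fun hgt => ?_⟩
    have h2 := pos_of_gt hgt
    omega
  · rintro ⟨hG, h1⟩
    refine ⟨hG, fun E _ _ w z hz hw ht hgt => ?_⟩
    exact (h1 _ ((h.sub E w z hz hw ht).resolve_left hgt)).2

end Pool.Agent.P8H50.SS.SF
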