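import Pool.Agent.P8H50.SS.Surf
import Pool.Agent.TH466.QG.Equiv
import Pool.Agent.Q96.OS.Gen

/-!
Special sets over grids (helper50): the Green-Griffiths-Lang equivalence for all closed subvarieties.
-/

set_option autoImplicit false
set_option linter.overlappingInstances false

namespace Pool.Agent.P8H50.SS.SF

open Pool.Agent.Q103.SF
open FF Metric
open Pool.Agent.W602.GT
open Pool.Agent.Y221.BD (EntireCurve PseudoBrody)
open Pool.Agent.Y216 (OnVar)
open Pool.Agent.W603.LV (canDeg)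
open Pool.Agent.TH466.QG (SubOf)

variable {M : ℕ} {K : Type} [Field K] [Algebra ℂ K] {x : Fin (M + 1) → K}

/-- **The equivalence of Green-Griffiths and Lang for all closed subvarieties.** -/
theorem ggl (h : SpecialSets x) (hH : Hered x) {E : Type} [Field E] [Algebra ℂ E] {w : ℕ}
    {z : Fin (M + 1) → E} (hz : SubOf ℂ x z) (hw : 1 ≤ w) (ht : Algebra.trdeg ℂ E = w) :
    GeneralType ℂ E w ↔ PseudoBrody z := by
  constructor
  · intro hgt
    by_cases hw2 : 2 ≤ w
    · obtain ⟨R, hR⟩ := hH E w z hz hw2 ht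
      exact ⟨R, hR.form, hR.ne, hR.curve⟩
    have hw1 : w = 1 := by omega
    subst hw1
    refine ⟨1, ⟨0, MvPolynomial.isHomogeneous_one _ _⟩, ?_, fun f hf => ?_⟩
    · unfold val
      rw [map_one]
      exact one_ne_zero
    exfalso
    have hf' : EntireCurve x f := ⟨hf.hol, hf.ne, fun G hG hGx => hf.mem G hG (hz.spec G hG hGx),
      hf.nonconst⟩
    obtain ⟨L, _, _, _, v, hv, hgen, hc, hV⟩ := h.entire f hf'
    obtain ⟨-, h2⟩ := Pool.Agent.Q96.OS.gen_point' (b := z) ⟨Function.ne_iff.1 hz.ne, hz.gen⟩ ht L v 1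
      (fun G D hG hGz => by
        have h3 : G ∈ vanOn Set.univ (fun t i => f i t) :=
          ⟨⟨D, hG⟩, fun t _ => hf.mem G ⟨D, hG⟩ hGz t⟩
        rw [hV] at h3
        exact h3.2) ⟨hv.1, hgen⟩ (by
        rw [IsFF.trdeg (k := ℂ) (K := L)]
        simp)
    obtain ⟨σ, l, -, -, hσ⟩ := h2 rfl
    have h3 := Pool.Agent.TH466.QG.general_of_equiv
      (AlgEquiv.ofBijective σ ⟨(σ : E →+* L).injective, hσ⟩) hgt
    have h4 := pos_of_gt h3
    omega
  · rintro ⟨G, hG, hzG, h1⟩
    rcases h.sub E w z hz hw ht with h2 | h2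
    · exact h2
    exfalso
    obtain ⟨f, hf, he⟩ := h.curves _ h2
    have hf' : EntireCurve z f := ⟨hf.hol, hf.ne, fun H hH hHz t => by
      have h3 : H ∈ van z := ⟨hH, hHz⟩
      rw [← he] at h3
      exact h3.2 t (Set.mem_univ t), hf.nonconst⟩
    have h3 : G ∈ vanOn Set.univ (fun t i => f i t) := ⟨hG, fun t _ => h1 f hf' t⟩
    rw [he] at h3
    exact hzG h3.2

end Pool.Agent.P8H50.SS.SF
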