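import Pool.Agent.P8H50.SS.Cla
import Pool.Agent.P8H50.SS.Ggl
import Pool.Agent.P8H50.SS.Frm
import Pool.Agent.Q95.SF.Wei

/-!
Special sets over grids (helper50): main theorems.
-/

set_option autoImplicit false

open FF Pool.Agent.W602.GT

namespace Pool.Agent.P8H50.SS

open Pool.Agent.TH466.QG (SubOf)
open Pool.Agent.Q103.SF

/-- **General type.** -/
theorem IsGridCover.generalType {k K : Type} [Field k] [IsAlgClosed k] [CharZero k] [Field K]
    [Algebra k K] (h : IsGridCover k K) {d : ℕ} (hd : 1 ≤ d) (htr : Algebra.trdeg k K = d) :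
    GeneralType k K d := by
  obtain ⟨n, r, C, x, z, hC, halg⟩ := h.exists_cmb
  exact Cmb.general hC halg hd htr

variable {M : ℕ} {K : Type} [Field K] [Algebra ℂ K] {x : Fin (M + 1) → K}

/-- **Special sets.** -/
theorem Grids.special (h : Grids x) : SpecialSets x :=
  SF.special Pool.Agent.Q95.SF.wei h.hered

theorem Grids.ggl (h : Grids x) {E : Type} [Field E] [Algebra ℂ E] {w : ℕ}
    {z : Fin (M + 1) → E} (hz : SubOf ℂ x z) (hw : 1 ≤ w) (ht : Algebra.trdeg ℂ E = w) :
    GeneralType ℂ E w ↔ Pool.Agent.Y221.BD.PseudoBrody z :=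
  SF.ggl h.special h.hered hz hw ht

theorem Grids.forms (h : Grids x) : entForms x = lowForms x ∧ meroForms x = lowForms x ∧
    ellForms x = lowForms x ∧ algForms x = lowForms x :=
  ⟨SF.ent_eq h.special, SF.mero_eq h.special, SF.ell_eq Pool.Agent.Q95.SF.wei h.special,
    SF.alg_eq h.special⟩

end Pool.Agent.P8H50.SS
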