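import Pool.Agent.TH466.QG.Strong
import Pool.Agent.Y216.Point

/-!
Special sets over grids (helper50): specialisation as a pair of homomorphisms (copied from
`Q209/GT/Spec.lean` and `Q209/GT/Sub.lean`).
-/

set_option autoImplicit false

namespace Pool.Agent.P8H50.SS

open Polynomial

theorem unit_ne {B L E : Type} [CommRing B] [Field L] [Field E] (α : B →+* L) (β : B →+* E)
    (hα : Function.Injective α) {b : B} (hb : α b ≠ 0)
    (hi : (α b)⁻¹ ∈ Set.range α) : β b ≠ 0 := by
  obtain ⟨c, hc⟩ := hi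
  have h1 : b * c = 1 := hα (by rw [map_mul, hc, mul_inv_cancel₀ hb, map_one])
  intro h0
  have h2 := congrArg β h1
  rw [map_mul, h0, zero_mul, map_one] at h2
  exact zero_ne_one h2

open Pool.Agent.TH466.QG (graph exists_den)

/-- specialisation as a pair of homomorphisms -/
theorem spec {k L : Type} [Field k] [Field L] [Algebra k L] {σ : Type} {y : σ → L}
    (hy : IntermediateField.adjoin k (Set.range y) = ⊤) {Θ : Set L} (hΘ : Θ.Finite) :
    ∃ H : MvPolynomial σ k, MvPolynomial.aeval y H ≠ 0 ∧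
      ∀ (E : Type) [Field E] [Algebra k E] (z : σ → E),
        (∀ G : MvPolynomial σ k, MvPolynomial.aeval y G = 0 → MvPolynomial.aeval z G = 0) →
        MvPolynomial.aeval z H ≠ 0 →
        ∃ (B : Type) (_ : CommRing B) (_ : Algebra k B) (α : B →ₐ[k] L) (β : B →ₐ[k] E),
          Function.Injective α ∧ (∀ i, ∃ b, α b = y i ∧ β b = z i) ∧
          ∀ θ ∈ Θ, θ ∈ Set.range α := by
  obtain ⟨H, hH, hG⟩ := exists_den hy hΘ
  refine ⟨H, hH, fun E _ _ z hz hzH => ?_⟩
  let α : graph k y z →ₐ[k] L := (AlgHom.fst k L E).comp (graph k y z).val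
  let β : graph k y z →ₐ[k] E := (AlgHom.snd k L E).comp (graph k y z).val
  have hker : ∀ b, α b = 0 → β b = 0 := by
    rintro ⟨⟨a, a'⟩, G, H', h1, h2, h3, h4⟩ h0
    change a = 0 at h0
    change a' = 0
    simp only at h3 h4
    rw [h0, zero_mul] at h3
    rw [hz G h3.symm] at h4
    exact (mul_eq_zero.1 h4).resolve_right h2
  refine ⟨graph k y z, inferInstance, inferInstance, α, β, ?_, ?_, ?_⟩
  · rw [injective_iff_map_eq_zero]
    intro b hb
    exact Subtype.ext (Prod.ext hb (hker b hb))
  · intro i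
    exact ⟨⟨(y i, z i), MvPolynomial.X i, 1, by rw [map_one]; exact one_ne_zero, by
      rw [map_one]; exact one_ne_zero, by simp, by simp⟩, rfl, rfl⟩
  · intro θ hθ
    obtain ⟨G, ha⟩ := hG θ hθ
    refine ⟨⟨(θ, MvPolynomial.aeval z G / MvPolynomial.aeval z H), G, H, hH, hzH, ha, ?_⟩, rfl⟩
    exact div_mul_cancel₀ _ hzH

open scoped IntermediateField.algebraAdjoinAdjoin in
/-- an element algebraic over the field generated by a set satisfies an equation whose coefficients
are polynomials in the elements of the set -/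
theorem alg_eqn {k L : Type} [Field k] [Field L] [Algebra k L] {S : Set L} {y : L}
    (hy : IsAlgebraic (IntermediateField.adjoin k S) y) :
    ∃ (D : ℕ) (g : ℕ → MvPolynomial S k),
      MvPolynomial.aeval (Subtype.val : S → L) (g D) ≠ 0 ∧
      ∑ j ∈ Finset.range (D + 1), MvPolynomial.aeval (Subtype.val : S → L) (g j) * y ^ j = 0 := by
  classical
  obtain ⟨f, hf0, hf⟩ := (IsFractionRing.isAlgebraic_iff (Algebra.adjoin k S)
    (IntermediateField.adjoin k S) L).2 hy
  have hg : ∀ j, ∃ g : MvPolynomial S k,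
      MvPolynomial.aeval (Subtype.val : S → L) g = (f.coeff j : L) := by
    intro j
    have h1 : ∀ a : Algebra.adjoin k S, ∃ g : MvPolynomial S k,
        MvPolynomial.aeval (Subtype.val : S → L) g = (a : L) := by
      rintro ⟨a, ha⟩
      rw [Algebra.adjoin_eq_range] at ha
      obtain ⟨g, hg⟩ := ha
      exact ⟨g, hg⟩
    exact h1 _
  choose g hg using hg
  refine ⟨f.natDegree, g, ?_, ?_⟩
  · rw [hg]
    have h1 : f.coeff f.natDegree ≠ 0 := Polynomial.leadingCoeff_ne_zero.2 hf0
    intro h2
    exact h1 (Subtype.ext h2)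
  · rw [Polynomial.aeval_eq_sum_range] at hf
    rw [← hf]
    refine Finset.sum_congr rfl fun j _ => ?_
    rw [hg, Algebra.smul_def]
    rfl

/-- a relation with nonzero leading coefficient -/
theorem alg_of_eqn {F E : Type} [Field F] [Field E] [Algebra F E] {D : ℕ} {e : ℕ → E} {z : E}
    (he : ∀ j, e j ∈ Set.range (algebraMap F E)) (h0 : e D ≠ 0)
    (h : ∑ j ∈ Finset.range (D + 1), e j * z ^ j = 0) : IsAlgebraic F z := by
  classical
  choose a ha using he
  refine ⟨∑ j ∈ Finset.range (D + 1), Polynomial.C (a j) * Polynomial.X ^ j, ?_, ?_⟩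
  · intro h1
    have h2 := congrArg (fun f => Polynomial.coeff f D) h1
    simp only [Polynomial.finsetSum_coeff, Polynomial.coeff_C_mul_X_pow,
      Polynomial.coeff_zero] at h2
    rw [Finset.sum_eq_single D (fun b _ hb => if_neg hb.symm)
      (fun h => absurd (Finset.mem_range.2 (Nat.lt_succ_self D)) h), if_pos rfl] at h2
    apply h0
    rw [← ha D, h2, map_zero]
  · rw [map_sum, ← h]
    refine Finset.sum_congr rfl fun j _ => ?_
    rw [map_mul, Polynomial.aeval_C, map_pow, Polynomial.aeval_X, ha]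

end Pool.Agent.P8H50.SS
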