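import Pool.Agent.P8H50.SS.Conv
import Pool.Agent.Q103.SF.Pointed
import Pool.Agent.Q285.SFG.Gpc
import Pool.Agent.Q24.SF.W3

/-!
Special sets over grids (helper50): special sets, notions of hyperbolicity (after
`Q103/SF/Main.lean`)
-/

set_option autoImplicit false
set_option maxHeartbeats 400000
set_option linter.overlappingInstances false
set_option linter.unusedSectionVars false

namespace Pool.Agent.P8H50.SS.SF

open Pool.Agent.Q103.SF

open FF Filter Polynomial
open Pool.Agent.W602.GT Metric Topology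
open Pool.Agent.Y221.PD
open Pool.Agent.Y221.BD (EntireCurve)
open Pool.Agent.Y216 (OnVar)
open Pool.Agent.W603.LV (canDeg)
open Pool.Agent.W603.PV (pht)
open Pool.Agent.Q271.RC (Nonconst)
open Pool.Agent.TH466.QG (SubOf)
open Pool.Agent.P8H50.SS (HypMod)
open Pool.Agent.W602.RG (PointedMaps)
open Pool.Agent.Q103.KO (IsPoint SameP Chain)

variable {M : ℕ} {K : Type} [Field K] [Algebra ℂ K] {x : Fin (M + 1) → K}

theorem pht_const {L : Type} [Field L] [Algebra ℂ L] [IsFF ℂ L] {v : Fin (M + 1) → L}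
    (hv : ∃ j, v j ≠ 0) (h : ¬ Nonconst v) : pht ℂ v ≤ 0 := by
  by_contra hcon
  exact h (Pool.Agent.Q96.OS.nonconst_of_pht hv (not_le.1 hcon))

theorem special (hw : S_wei) (hH : Hered x) : SpecialSets x := by
  have hG1 : S_gpc := Pool.Agent.Q285.SFG.t_gpc
  have hlow : S_low := Pool.Agent.Q24.SF.low_curve hw Pool.Agent.Q111.SF.cls
  obtain ⟨h1, h2, h3⟩ := alg' hH
  exact
    { finite := h1
      entire := fun f hf => entire_low hG1 hH hf
      curves := fun V hV => curve_of_low hlow hV
      elliptic := fun V hV => ell_of_low hV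
      mero := fun g u hu => mero_low hG1 hH h1 hu
      disc := fun f hf => disc_low' hG1 hH hf
      sub := h3
      degree := h2 }

/-- the notions of hyperbolicity for a variety with the special sets of `SpecialSets` -/
theorem tfae (hw : S_wei) (hp : S_ptd) (hk : S_kob) (h : SpecialSets x) :
    List.TFAE [KobayashiHyp x, BrodyHyp x, PicardHyp x, NoMero x, NoElliptic x, AlgHyp x,
      AllGeneral x, GeomHyp x, lowCurves x = ∅] := by
  tfae_have 1 ↔ 2 := (hk M K x).symm
  tfae_have 9 → 2 := by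
    intro h0 f hf
    have := h.entire f hf
    rw [h0] at this
    exact this
  tfae_have 9 → 3 := by
    intro h0 f hf
    have := h.disc f hf
    rw [h0] at this
    exact this
  tfae_have 9 → 4 := by
    intro h0 g u hu
    have := h.mero g u hu
    rw [h0] at this
    exact this
  tfae_have 2 → 9 := by
    intro h0
    rw [Set.eq_empty_iff_forall_notMem]
    intro V hV
    obtain ⟨f, hf, -⟩ := h.curves V hV
    exact h0 f hf
  tfae_have 3 → 2 := by
    intro h0 f hf
    exact h0 _ (disc_of_entire hf)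
  tfae_have 4 → 2 := by
    intro h0 f hf
    obtain ⟨i, j, a, b, hab⟩ := hf.nonconst
    refine h0 1 (fun i t => f i (t 0)) ⟨fun i => ?_, fun G hG hGx t => hf.mem G hG hGx _, i, j,
      fun _ => a, fun _ => b, hab⟩
    exact (hf.hol i).comp (by fun_prop)
  tfae_have 5 → 9 := by
    intro h0
    rw [Set.eq_empty_iff_forall_notMem]
    intro V hV
    obtain ⟨E, _, _, _, v, hE, hv, hn, -⟩ := h.elliptic V hV
    exact h0 E hE v hv hn
  tfae_have 9 → 6 := by
    intro h0
    obtain ⟨A, hA⟩ := h.degree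
    refine ⟨A, fun L _ _ _ v hv hn => ?_⟩
    rcases hA L v hv hn with h1 | h1
    · exact h1
    · rw [h0] at h1
      exact h1.elim
  tfae_have 6 → 9 := by
    rintro ⟨A, hA⟩
    rw [Set.eq_empty_iff_forall_notMem]
    rintro V ⟨L, _, _, _, v, hv, hgen, hc, rfl⟩
    have hn := nonconst_of_low hv hgen
    have h1 := hA L v hv hn
    have h2 := Pool.Agent.Q96.LS.pht_pos v hn
    have h3 : (A : ℤ) * canDeg ℂ L ≤ 0 := mul_nonpos_of_nonneg_of_nonpos (by positivity) hc
    omega
  tfae_have 9 → 7 := by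
    intro h0 E _ _ w z hz hw ht
    rcases h.sub E w z hz hw ht with h1 | h1
    · exact h1
    · rw [h0] at h1
      exact h1.elim
  tfae_have 7 → 9 := by
    intro h0
    rw [Set.eq_empty_iff_forall_notMem]
    rintro V ⟨L, _, _, _, v, hv, hgen, hc, rfl⟩
    have hne : v ≠ 0 := by
      obtain ⟨j, hj⟩ := hv.1
      intro h
      exact hj (congrFun h j)
    have h1 := h0 L 1 v ⟨hne, hgen, hv.2⟩ le_rfl (by
      rw [IsFF.trdeg (k := ℂ) (K := L)]
      simp)
    have h2 := pos_of_gt h1
    omega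
  tfae_have 6 → 8 := by
    rintro ⟨A, hA⟩ E _ _ _ c a ha
    refine pointed_all (B := A) (fun L _ _ _ f hf => ?_) E c a ha
    by_cases hn : Nonconst f
    · have h1 := hA L f hf hn
      have h2 : (A : ℤ) * canDeg ℂ L ≤ A * max (canDeg ℂ L) 0 :=
        mul_le_mul_of_nonneg_left (le_max_left _ _) (by positivity)
      exact h1.trans h2
    · exact (pht_const hf.1 hn).trans (by positivity)
  tfae_have 8 → 9 := by
    intro h0
    rw [Set.eq_empty_iff_forall_notMem]
    rintro V ⟨L, _, _, _, v, hv, hgen, hc, rfl⟩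
    obtain ⟨c, a, ha, hinf⟩ := hp L hc M v (nonconst_of_low hv hgen)
    apply hinf
    refine (h0 L c a ⟨ha.1, fun G hG hGx => ha.2 G hG (hv.2 G hG hGx)⟩).subset ?_
    rintro φ ⟨f, hf, h1, h2, h3⟩
    exact ⟨f, hf, fun H hH hHx => h1 H hH (hv.2 H hH hHx), h2, h3⟩
  tfae_have 2 → 5 := by
    intro h0 E _ _ _ hE v hv hn
    obtain ⟨f, hf, -⟩ := curve_of_ell hw hE hv hn
    exact h0 f hf
  tfae_finish

end Pool.Agent.P8H50.SS.SF
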