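import Pool.Agent.TH466.QG.Strong
import Pool.Agent.Y221.PD.Defs
import Pool.Agent.Y221.BD.Defs
import Pool.Agent.Y216.Point
import Pool.Agent.Y221.PD.Imp

/-!
Special sets over grids (helper50): hyperbolicity modulo a proper closed subset.
-/

set_option autoImplicit false

namespace Pool.Agent.P8H50.SS

open FF Metric
open Pool.Agent.W602.GT
open Pool.Agent.TH466.QG (SubOf StronglyGeneral)
open Pool.Agent.Y221.BD (EntireCurve PseudoBrody)
open Pool.Agent.Y221.PD (EssentialDisc PseudoPicard MeroMap TorusCurve brody_of_picard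
  abelian_of_brody torus_of_brody)
open Pool.Agent.Y216 (OnVar CurveBound pointed_of_bound)
open Pool.Agent.W602.RG (PseudoGeomHyp PointedMaps)
open Pool.Agent.W603.LV (canDeg)
open Pool.Agent.W603.PV (pht)

/-- The projective variety `Y` with the generic point `v` is hyperbolic modulo the proper closed subset
`Z` given by the form `R`. -/
structure HypMod {M : ℕ} {L : Type} [Field L] [Algebra ℂ L] (v : Fin (M + 1) → L)
    (R : MvPolynomial (Fin (M + 1)) ℂ) : Prop where
  form : IsForm R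
  ne : val v R ≠ 0
  /-- all closed subvarieties of positive dimension which are not contained in `Z` are of general
  type -/
  sub : ∀ (E : Type) [Field E] [Algebra ℂ E] (w : ℕ) (z : Fin (M + 1) → E), SubOf ℂ v z →
    val z R ≠ 0 → 1 ≤ w → Algebra.trdeg ℂ E = w → GeneralType ℂ E w
  /-- `Z` contains the images of all holomorphic maps from the punctured disc to `Y` with an essential
  singularity -/
  disc : ∀ f, EssentialDisc v f → ∀ t ∈ ball (0 : ℂ) 1 \ {0}, MvPolynomial.eval (f t) R = 0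
  /-- `Z` contains all entire curves -/
  curve : ∀ f, EntireCurve v f → ∀ t, MvPolynomial.eval (fun i => f i t) R = 0
  /-- `Z` contains all nonconstant meromorphic images of the spaces `ℂ ^ g` -/
  mero : ∀ g h, MeroMap v g h → ∀ t, MvPolynomial.eval (fun i => h i t) R = 0
  /-- `Z` contains all nonconstant images of the multiplicative group -/
  torus : ∀ f, TorusCurve v f → ∀ t, t ≠ 0 → MvPolynomial.eval (fun i => (f i).eval t) R = 0
  /-- for every pointed curve there are only finitely many morphisms to `Y` with a given value outside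
  of `Z` at the marked point -/
  pointed : ∀ (E : Type) [Field E] [Algebra ℂ E] [IsFF ℂ E] (c : Place ℂ E),
    ∀ a ∈ VarPts ℂ v, val a R ≠ 0 → (PointedMaps v c a).Finite
  /-- the degree of the morphisms from a curve of genus `g` to `Y`, with an image not contained in `Z`,
  is at most `A * max (2 * g - 2) 0` -/
  degree : ∃ A : ℕ, ∀ (E : Type) [Field E] [Algebra ℂ E] [IsFF ℂ E] (f : Fin (M + 1) → E),
    OnVar ℂ v f → val f R ≠ 0 → pht ℂ f ≤ A * max (canDeg ℂ E) 0

section combine

variable {M : ℕ} {L : Type} [Field L] [Algebra ℂ L] {v : Fin (M + 1) → L}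

theorem isForm_mul {R S : MvPolynomial (Fin (M + 1)) ℂ} (hR : IsForm R) (hS : IsForm S) :
    IsForm (R * S) := by
  obtain ⟨a, ha⟩ := hR
  obtain ⟨b, hb⟩ := hS
  exact ⟨a + b, ha.mul hb⟩

theorem val_mul' {E : Type} [Field E] [Algebra ℂ E] (z : Fin (M + 1) → E)
    (R S : MvPolynomial (Fin (M + 1)) ℂ) : val z (R * S) = val z R * val z S := by
  unfold val
  exact map_mul _ _ _

/-- one closed subset for all the conditions -/
theorem hypMod_of (h1 : StronglyGeneral ℂ v) (h2 : PseudoPicard v) (h3 : CurveBound ℂ v) :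
    ∃ R, HypMod v R := by
  have h5 := brody_of_picard h2
  obtain ⟨R1, f1, n1, g1⟩ := h1
  obtain ⟨R2, f2, n2, g2⟩ := h2
  obtain ⟨R4, f4, n4, g4⟩ := abelian_of_brody h5
  obtain ⟨R5, f5, n5, g5⟩ := torus_of_brody h5
  obtain ⟨R3, f3, n3, g3⟩ := h5
  obtain ⟨R6, f6, n6, g6⟩ := pointed_of_bound h3
  obtain ⟨R7, f7, n7, g7⟩ := h3
  have key : ∀ {E : Type} [Field E] [Algebra ℂ E] (z : Fin (M + 1) → E),
      val z (R1 * R2 * R3 * R4 * R5 * R6 * R7) ≠ 0 ↔ val z R1 ≠ 0 ∧ val z R2 ≠ 0 ∧
        val z R3 ≠ 0 ∧ val z R4 ≠ 0 ∧ val z R5 ≠ 0 ∧ val z R6 ≠ 0 ∧ val z R7 ≠ 0 := by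
    intro E _ _ z
    simp only [val_mul', Ne, mul_eq_zero, not_or]
    tauto
  refine ⟨R1 * R2 * R3 * R4 * R5 * R6 * R7, ?_, ?_, ?_, ?_, ?_, ?_, ?_, ?_, ?_⟩
  · exact isForm_mul (isForm_mul (isForm_mul (isForm_mul (isForm_mul (isForm_mul f1 f2)
      f3) f4) f5) f6) f7
  · rw [key]
    exact ⟨n1, n2, n3, n4, n5, n6, n7⟩
  · intro E _ _ w z hz hR hw htr
    exact g1 E w z hz ((key z).1 hR).1 hw htr
  · intro f hf t ht
    simp only [map_mul, g2 f hf t ht, mul_zero, zero_mul]
  · intro f hf t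
    simp only [map_mul, g3 f hf t, mul_zero, zero_mul]
  · intro g h hh t
    simp only [map_mul, g4 g h hh t, mul_zero, zero_mul]
  · intro f hf t ht
    simp only [map_mul, g5 f hf t ht, mul_zero, zero_mul]
  · intro E _ _ _ c a ha hR
    exact g6 E c a ha ((key a).1 hR).2.2.2.2.2.1
  · obtain ⟨A, hA⟩ := g7
    exact ⟨A, fun E _ _ _ f hf hR => hA E f hf ((key f).1 hR).2.2.2.2.2.2⟩

end combine

end Pool.Agent.P8H50.SS
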