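import Pool.Agent.P8H50.SS.Cls
import Pool.Agent.P8H50.SG.OVer2
import Pool.Agent.P8H50.SG.Dim

/-!
Special sets over grids (helper50): varieties over the systems of covers belong to the class.
-/

set_option autoImplicit false

open FF Pool.Agent.W603.LV Pool.Agent.W602.GT

namespace Pool.Agent.P8H50.SS

open Pool.Agent.P8H50.SG
open Pool.Agent.P8H50.SG.Sys (GenFinite)

variable {k : Type} [Field k] {n r : ℕ} (S : Sys k n r) {K : Type} [Field K] [Algebra k K]

/-- The part of a variety over the system where all `w i` vanish has dimension at most `n - r`. -/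
theorem dim_zero' (hS : S.Good) {d : ℕ} {x y : Fin n → K} {w : Fin r → K}
    (h : S.Point x y w) (hfin : GenFinite k x y) (htr : Algebra.trdeg k K = d)
    (hw : ∀ i, w i = 0) : d + r ≤ n := by
  classical
  have ht := S.nf_ne h
  have hN := S.nf_normal h
  have h' := Sys.Point.scale S hS ht h
  have hw' : ∀ i, (∏ j, Sys.nf x y j ^ S.deg i j) * w i = 0 := fun i => by rw [hw i, mul_zero]
  obtain ⟨σ, hσ, hz⟩ := S.zero_sigma hS h' hw'
  set x' : Fin n → K := fun j => Sys.nf x y j * x j with hx'
  set y' : Fin n → K := fun j => Sys.nf x y j * y j with hy'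
  have hc : ∀ i, ∃ c : k, x' (σ i) = algebraMap k K c := by
    intro i
    obtain ⟨l, hl⟩ := hz i
    obtain ⟨c, -, h, -⟩ := S.const_of_zero hS (hN (σ i)) hl
    exact ⟨c, h⟩
  set T : Finset (Fin n) := (Finset.univ.image σ)ᶜ with hT
  have hcard : T.card + r = n := by
    have h1 : (Finset.univ.image σ).card = r := by
      rw [Finset.card_image_of_injective _ hσ]
      simp
    have h2 := Finset.card_add_card_compl (Finset.univ.image σ)
    rw [h1, Fintype.card_fin, ← hT] at h2
    omega
  set s : Set K := x' '' T with hs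
  have hle : IntermediateField.adjoin k (Set.range x') ≤ IntermediateField.adjoin k s := by
    rw [IntermediateField.adjoin_le_iff]
    rintro _ ⟨j, rfl⟩
    by_cases hj : j ∈ T
    · exact IntermediateField.subset_adjoin k _ ⟨j, hj, rfl⟩
    · rw [hT, Finset.mem_compl, not_not] at hj
      obtain ⟨i, -, rfl⟩ := Finset.mem_image.1 hj
      obtain ⟨c, hc⟩ := hc i
      rw [hc]
      exact (IntermediateField.adjoin k s).algebraMap_mem c
  have halg : Algebra.IsAlgebraic (IntermediateField.adjoin k s) K :=
    alg_le hle (GenFinite.norm S h hfin)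
  have halg' : Algebra.IsAlgebraic (Algebra.adjoin k s) K := alg_adjoin halg
  obtain ⟨t, ht', hb⟩ := exists_isTranscendenceBasis_subset (R := k) (A := K) s
  have h3 : Cardinal.mk t = d := by
    have h := hb.cardinalMk_eq_trdeg
    rwa [htr] at h
  have h4 : Cardinal.mk t ≤ T.card := by
    refine (Cardinal.mk_le_mk_of_subset ht').trans ?_
    refine Cardinal.mk_image_le.trans ?_
    simp
  rw [h3] at h4
  have h5 : d ≤ T.card := by exact_mod_cast h4
  omega

/-- a good coordinate of the projective line -/
theorem exists_coord [Infinite k] {q : ℕ} (hq : 2 ≤ q) {a b : Fin q → k}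
    (hab : ∀ l l', l ≠ l' → a l * b l' ≠ a l' * b l) {x y : K} (hxy : x ≠ 0 ∨ y ≠ 0) :
    ∃ t : k, (∀ l, a l - b l * t ≠ 0) ∧ y + algebraMap k K t * x ≠ 0 := by
  classical
  have h1 : (Set.range fun l => a l / b l).Finite := Set.finite_range _
  have h2 : {t : k | y + algebraMap k K t * x = 0}.Finite := by
    refine Set.Subsingleton.finite ?_
    intro t ht t' ht'
    have hx : x ≠ 0 := by
      intro h0
      rcases hxy with h | h
      · exact h h0
      · apply h
        have : y + algebraMap k K t * x = 0 := ht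
        rwa [h0, mul_zero, add_zero] at this
    have h3 : (algebraMap k K t - algebraMap k K t') * x = 0 := by
      have e1 : y + algebraMap k K t * x = 0 := ht
      have e2 : y + algebraMap k K t' * x = 0 := ht'
      linear_combination e1 - e2
    exact (algebraMap k K).injective (sub_eq_zero.1 ((mul_eq_zero.1 h3).resolve_right hx))
  obtain ⟨t, ht⟩ := (h1.union h2).infinite_compl.nonempty
  rw [Set.mem_compl_iff, Set.mem_union, not_or] at ht
  refine ⟨t, fun l h0 => ?_, ht.2⟩
  by_cases hb : b l = 0
  · rw [hb, zero_mul, sub_zero] at h0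
    obtain ⟨l', hl'⟩ : ∃ l' : Fin q, l ≠ l' := by
      have : Nontrivial (Fin q) := Fin.nontrivial_iff_two_le.2 hq
      obtain ⟨l', h⟩ := exists_ne l
      exact ⟨l', h.symm⟩
    apply hab l l' hl'
    rw [h0, hb, zero_mul, mul_zero]
  · apply ht.1
    refine ⟨l, ?_⟩
    simp only
    rw [div_eq_iff hb]
    linear_combination h0

open Polynomial in
/-- the polynomial of a column -/
theorem col_poly {q : ℕ} (a b : Fin q → k) (e : Fin q → ℕ) (he : ∀ l, 1 ≤ e l)
    (hab : ∀ l l', l ≠ l' → a l * b l' ≠ a l' * b l) {t : k} (ht : ∀ l, a l - b l * t ≠ 0) :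
    ∃ P : k[X], P ≠ 0 ∧ P.natDegree = ∑ l, e l ∧ (P.rootSet k).ncard = q ∧
      ∀ (K : Type) [Field K] [Algebra k K] (u : K), aeval u P =
        ∏ l, (algebraMap k K (a l - b l * t) * u + algebraMap k K (b l)) ^ e l := by
  classical
  have h0 : ∀ l, (C (a l - b l * t) * X + C (b l) : k[X]) ≠ 0 := by
    intro l h
    have h1 := natDegree_linear (b := b l) (ht l)
    rw [h, natDegree_zero] at h1
    omega
  refine ⟨∏ l, (C (a l - b l * t) * X + C (b l)) ^ e l,
    Finset.prod_ne_zero_iff.2 fun l _ => pow_ne_zero _ (h0 l), ?_, ?_, ?_⟩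
  · rw [natDegree_prod _ _ fun l _ => pow_ne_zero _ (h0 l)]
    refine Finset.sum_congr rfl fun l _ => ?_
    rw [natDegree_pow, natDegree_linear (ht l), mul_one]
  · have hP0 : (∏ l, (C (a l - b l * t) * X + C (b l)) ^ e l : k[X]) ≠ 0 :=
      Finset.prod_ne_zero_iff.2 fun l _ => pow_ne_zero _ (h0 l)
    have h1 : (∏ l, (C (a l - b l * t) * X + C (b l)) ^ e l : k[X]).rootSet k =
        (fun l => -(b l) / (a l - b l * t)) '' Set.univ := by
      ext c
      rw [mem_rootSet, Set.image_univ, Set.mem_range]
      constructor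
      · rintro ⟨-, h⟩
        rw [map_prod, Finset.prod_eq_zero_iff] at h
        obtain ⟨l, -, hl⟩ := h
        rw [map_pow] at hl
        have h2 := pow_eq_zero_iff (by have := he l; omega : e l ≠ 0) |>.1 hl
        rw [map_add, map_mul, aeval_C, aeval_X, aeval_C] at h2
        refine ⟨l, ?_⟩
        rw [div_eq_iff (ht l)]
        change (a l - b l * t) * c + b l = 0 at h2
        linear_combination -h2
      · rintro ⟨l, rfl⟩
        refine ⟨hP0, ?_⟩
        rw [map_prod]
        refine Finset.prod_eq_zero (Finset.mem_univ l) ?_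
        rw [map_pow, map_add, map_mul, aeval_C, aeval_X, aeval_C]
        have h2 : algebraMap k k (a l - b l * t) * (-(b l) / (a l - b l * t)) +
            algebraMap k k (b l) = 0 := by
          change (a l - b l * t) * (-(b l) / (a l - b l * t)) + b l = 0
          rw [mul_div_cancel₀ _ (ht l)]
          ring
        rw [h2, zero_pow (by have := he l; omega)]
    rw [h1, Set.ncard_image_of_injective, Set.ncard_univ, Nat.card_eq_fintype_card,
      Fintype.card_fin]
    intro l l' hll
    by_contra hne
    apply hab l l' hne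
    simp only at hll
    rw [div_eq_div_iff (ht l) (ht l')] at hll
    linear_combination hll
  · intro K _ _ u
    rw [map_prod]
    refine Finset.prod_congr rfl fun l _ => ?_
    rw [map_pow, map_add, map_mul, aeval_C, aeval_X, aeval_C]

/-- **Varieties over the system belong to the class**, if one of the `w i` does not vanish. -/
theorem gridCover [Infinite k] (hS : S.Good) {x y : Fin n → K} {w : Fin r → K}
    (h : S.Point x y w) (hfin : GenFinite k x y) {i : Fin r} (hi : w i ≠ 0) :
    IsGridCover k K := by
  classical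
  have hab : ∀ j (l l' : Fin (S.q i j)), l ≠ l' →
      S.a i j l * S.b i j l' ≠ S.a i j l' * S.b i j l := by
    intro j l l' hl
    exact hS.indep j ⟨i, l⟩ ⟨i, l'⟩ (by simpa using hl)
  choose t ht1 ht2 using fun j => exists_coord (K := K) (by have := hS.three i j; omega) (hab j)
    (h.ne j)
  choose P hP0 hPd hPn hPv using fun j => col_poly (S.a i j) (S.b i j) (S.e i j) (hS.pos i j)
    (hab j) (ht1 j)
  have hm := S.m_pos hS i
  have hm' : (0 : ℝ) < S.m i := by exact_mod_cast hm
  have hprod : ∀ j, ∏ _i : Fin 1, P j = P j := fun j => by simp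
  refine ⟨n, 1, fun _ => S.m i, fun _ j => P j,
    fun j => x j / (y j + algebraMap k K (t j) * x j),
    fun _ => w i / ∏ j, (y j + algebraMap k K (t j) * x j) ^ S.deg i j, fun _ => hm,
    fun _ j => ⟨hP0 j, ?_⟩, fun j => ?_, ?_, fun _ => ⟨?_, ?_⟩, ?_⟩
  · rw [hPd]
    exact hS.dvd i j
  · rw [hprod, hPn]
    exact hS.three i j
  · simp only [hprod, hPn, hPd]
    simp only [Finset.univ_unique, Finset.sum_singleton]
    have h1 := hS.small i
    have h2 : ∑ j, (∑ l, (S.e i j l : ℝ)) / ((S.q i j : ℝ) - 2) =
        S.m i * ∑ j, ((∑ l, S.e i j l : ℕ) : ℝ) / S.m i / ((S.q i j : ℝ) - 2) := by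
      rw [Finset.mul_sum]
      refine Finset.sum_congr rfl fun j _ => ?_
      push_cast
      field_simp
    rw [h2] at h1
    nlinarith
  · exact div_ne_zero hi (Finset.prod_ne_zero_iff.2 fun j _ => pow_ne_zero _ (ht2 j))
  · rw [div_pow, h.eq i, ← Finset.prod_pow]
    unfold Sys.rhs
    rw [← Finset.prod_div_distrib]
    refine Finset.prod_congr rfl fun j _ => ?_
    rw [hPv, ← pow_mul, mul_comm (S.deg i j), ← S.sum_e hS, ← Finset.prod_pow_eq_pow_sum,
      ← Finset.prod_div_distrib]
    refine Finset.prod_congr rfl fun l _ => ?_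
    rw [← div_pow]
    congr 1
    rw [map_sub, map_mul, div_eq_iff (ht2 j), add_mul, mul_assoc, div_mul_cancel₀ _ (ht2 j)]
    ring
  · refine alg_le (L := IntermediateField.adjoin k (Set.range fun j => x j / y j)) ?_ hfin
    rw [IntermediateField.adjoin_le_iff]
    rintro _ ⟨j, rfl⟩
    obtain ⟨u, hu⟩ : ∃ u, u = x j / (y j + algebraMap k K (t j) * x j) := ⟨_, rfl⟩
    have humem : u ∈ IntermediateField.adjoin k
        (Set.range fun j => x j / (y j + algebraMap k K (t j) * x j)) :=
      IntermediateField.subset_adjoin k _ ⟨j, hu.symm⟩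
    change x j / y j ∈ _
    by_cases hy : y j = 0
    · rw [hy, div_zero]
      exact zero_mem _
    · have h1 : x j / y j = u / (1 - algebraMap k K (t j) * u) := by
        have h2 := ht2 j
        have h3 : 1 - algebraMap k K (t j) * u = y j / (y j + algebraMap k K (t j) * x j) := by
          rw [hu, eq_div_iff h2, sub_mul, mul_assoc, div_mul_cancel₀ _ h2]
          ring
        rw [h3, hu, div_div_div_cancel_right₀ h2]
      rw [h1]
      exact div_mem humem (sub_mem (one_mem _)
        (mul_mem (IntermediateField.algebraMap_mem _ _) humem))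

end Pool.Agent.P8H50.SS
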