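import Pool.Agent.P8H50.SS.Hyp
import Pool.Agent.P8H50.SS.Disc
import Pool.Agent.P8H50.SS.Sys
import Pool.Agent.Q96.OS.Gen

/-!
Special sets over grids (helper50): varieties all of whose closed subvarieties of dimension at least
two belong to the class.
-/

set_option autoImplicit false

open FF Pool.Agent.W602.GT

namespace Pool.Agent.P8H50.SS

open Pool.Agent.TH466.QG (SubOf)
open Pool.Agent.P8H50.SG
open Pool.Agent.P8H50.SG.Sys (GenFinite)

/-- Every closed subvariety of dimension at least two of the projective variety with the generic point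
`x` has a function field in the class `IsGridCover`. -/
def Grids {M : ℕ} {K : Type} [Field K] [Algebra ℂ K] (x : Fin (M + 1) → K) : Prop :=
  ∀ (E : Type) [Field E] [Algebra ℂ E] (w : ℕ) (z : Fin (M + 1) → E), SubOf ℂ x z → 2 ≤ w →
    Algebra.trdeg ℂ E = w → IsGridCover ℂ E

theorem Grids.hered {M : ℕ} {K : Type} [Field K] [Algebra ℂ K] {x : Fin (M + 1) → K}
    (h : Grids x) : SF.Hered x := fun E _ _ w z hz hw ht =>
  (h E w z hz hw ht).hypMod hz.ne hz.gen

/-- curves and surfaces -/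
theorem IsGridCover.grids {K : Type} [Field K] [Algebra ℂ K] (hK : IsGridCover ℂ K) {d : ℕ}
    (hd : d ≤ 2) (htr : Algebra.trdeg ℂ K = d) {M : ℕ} {x : Fin (M + 1) → K} (hx : x ≠ 0)
    (hgen : coords ℂ x = ⊤) : Grids x := by
  intro E _ _ w z hz hw ht
  obtain ⟨h1, h2⟩ := Pool.Agent.Q96.OS.gen_point' (b := x) ⟨Function.ne_iff.1 hx, hgen⟩ htr E z w
    (fun G D hG hGx => hz.spec G ⟨D, hG⟩ hGx) ⟨Function.ne_iff.1 hz.ne, hz.gen⟩ ht
  obtain ⟨σ, l, -, -, hσ⟩ := h2 (by omega)
  exact hK.of_surj σ hσ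

/-- subvarieties of the varieties of systems -/
theorem of_system {n r : ℕ} {S : Sys ℂ n r} (hS : S.Good) (hn : n ≤ r + 1) {E : Type} [Field E]
    [Algebra ℂ E] {w : ℕ} (hw : 2 ≤ w) (ht : Algebra.trdeg ℂ E = w) {u v : Fin n → E}
    {ζ : Fin r → E} (h : S.Point u v ζ) (hfin : GenFinite ℂ u v) : IsGridCover ℂ E := by
  by_cases h0 : ∀ i, ζ i = 0
  · have := dim_zero' S hS h hfin ht h0
    omega
  · push Not at h0
    obtain ⟨i, hi⟩ := h0
    exact gridCover S hS h hfin hi

end Pool.Agent.P8H50.SS
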