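import Mathlib

/-!
Special sets over grids (helper50): the class of the function fields.
-/

set_option autoImplicit false

namespace Pool.Agent.P8H50.SS

open Polynomial

/-- The class of the function fields `K` over `k` of varieties with a generically finite rational map to
a system of cyclic covers of a product of projective lines: `K` contains functions
`x 0, …, x (n - 1)`, over which it is algebraic, and functions `z i ≠ 0` with
`z i ^ m i = ∏ j, P i j (x j)` for `i = 0, …, r - 1`. The `P i j` are nonzero polynomials over `k`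
whose degree is divisible by `m i ≥ 1`; if `q j` is the number of the different roots of the product
of the `P i j` over all `i`, then `q j ≥ 3`, and the sum over `j` of the numbers
`(∑ i, deg (P i j) / m i) / (q j - 2)` is less than one. (For `r = 1` this means that
`∑ j, deg (P j) / (q j - 2) < m`.) -/
def IsGridCover (k K : Type) [Field k] [Field K] [Algebra k K] : Prop :=
  ∃ (n r : ℕ) (m : Fin r → ℕ) (P : Fin r → Fin n → k[X]) (x : Fin n → K) (z : Fin r → K),
    (∀ i, 1 ≤ m i) ∧ (∀ i j, P i j ≠ 0 ∧ m i ∣ (P i j).natDegree) ∧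
    (∀ j, 3 ≤ ((∏ i, P i j).rootSet k).ncard) ∧
    ∑ j, (∑ i, ((P i j).natDegree : ℝ) / m i) / ((((∏ i, P i j).rootSet k).ncard : ℝ) - 2) < 1 ∧
    (∀ i, z i ≠ 0 ∧ z i ^ m i = ∏ j, aeval (x j) (P i j)) ∧
    Algebra.IsAlgebraic (IntermediateField.adjoin k (Set.range x)) K

/-- the roots of a family of polynomials, with multiplicities -/
theorem exists_roots {k : Type} [Field k] [IsAlgClosed k] {r : ℕ} (P : Fin r → k[X])
    (hP : ∀ i, P i ≠ 0) :
    ∃ (a : Fin (((∏ i, P i).rootSet k).ncard) → k)
      (e : Fin r → Fin (((∏ i, P i).rootSet k).ncard) → ℕ),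
      Function.Injective a ∧ (∀ l, ∃ i, 1 ≤ e i l) ∧ (∀ i, ∑ l, e i l = (P i).natDegree) ∧
      ∀ (i : Fin r) (K : Type) [Field K] [Algebra k K] (u : K), aeval u (P i) =
        algebraMap k K (P i).leadingCoeff * ∏ l, (u - algebraMap k K (a l)) ^ e i l := by
  classical
  have hQ : (∏ i, P i) ≠ 0 := Finset.prod_ne_zero_iff.2 fun i _ => hP i
  obtain ⟨Q, hQd⟩ : ∃ Q, Q = ∏ i, P i := ⟨_, rfl⟩
  rw [← hQd] at hQ ⊢
  have hset : Q.rootSet k = (Q.roots.toFinset : Set k) := by
    ext a
    rw [mem_rootSet, Finset.mem_coe, Multiset.mem_toFinset, mem_roots hQ, IsRoot.def]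
    simp [hQ, aeval_def]
  have hcard : Q.roots.toFinset.card = (Q.rootSet k).ncard := by
    rw [hset, Set.ncard_coe_finset]
  let φ : Fin ((Q.rootSet k).ncard) ≃ Q.roots.toFinset :=
    (Finset.equivFinOfCardEq hcard).symm
  have hprod : ∀ {A : Type} [CommMonoid A] (g : k → A), ∏ l, g (φ l) =
      ∏ a ∈ Q.roots.toFinset, g a := by
    intro A _ g
    rw [← Finset.prod_coe_sort Q.roots.toFinset g]
    exact Equiv.prod_comp φ fun a : Q.roots.toFinset => g a
  have hsplit : ∀ i, (P i).roots.card = (P i).natDegree := fun i =>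
    splits_iff_card_roots.1 (IsAlgClosed.splits (P i))
  have hroot : ∀ a, a ∈ Q.roots ↔ ∃ i, a ∈ (P i).roots := by
    intro a
    rw [mem_roots hQ, hQd, IsRoot.def, eval_prod, Finset.prod_eq_zero_iff]
    constructor
    · rintro ⟨i, -, hi⟩
      exact ⟨i, (mem_roots (hP i)).2 hi⟩
    · rintro ⟨i, hi⟩
      exact ⟨i, Finset.mem_univ _, (mem_roots (hP i)).1 hi⟩
  have hsub : ∀ i, (P i).roots.toFinset ⊆ Q.roots.toFinset := by
    intro i a ha
    rw [Multiset.mem_toFinset] at ha ⊢
    exact (hroot a).2 ⟨i, ha⟩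
  refine ⟨fun l => φ l, fun i l => (P i).roots.count (φ l : k), ?_, ?_, ?_, ?_⟩
  · exact Subtype.val_injective.comp φ.injective
  · intro l
    obtain ⟨i, hi⟩ := (hroot (φ l)).1 (Multiset.mem_toFinset.1 (φ l).2)
    refine ⟨i, ?_⟩
    rw [Nat.one_le_iff_ne_zero, ← Nat.pos_iff_ne_zero, Multiset.count_pos]
    exact hi
  · intro i
    have h1 := hprod (A := Multiplicative ℕ) fun a => Multiplicative.ofAdd ((P i).roots.count a)
    have h2 : ∑ l, (P i).roots.count (φ l : k) = ∑ a ∈ Q.roots.toFinset, (P i).roots.count a := by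
      have := congrArg Multiplicative.toAdd h1
      simpa only [toAdd_prod, toAdd_ofAdd] using this
    rw [h2, ← Finset.sum_subset (hsub i) fun a _ ha => by
      rw [Multiset.mem_toFinset] at ha
      exact Multiset.count_eq_zero_of_notMem ha, Multiset.toFinset_sum_count_eq, hsplit]
  · intro i K _ _ u
    have h1 := C_leadingCoeff_mul_prod_multiset_X_sub_C (hsplit i)
    have h2 : ((P i).roots.map fun a => X - C a).prod =
        ∏ a ∈ (P i).roots.toFinset, (X - C a) ^ (P i).roots.count a :=
      Finset.prod_multiset_map_count _ _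
    rw [h2, Finset.prod_subset (hsub i) fun a _ ha => by
      rw [Multiset.mem_toFinset] at ha
      rw [Multiset.count_eq_zero_of_notMem ha, pow_zero]] at h1
    conv_lhs => rw [← h1]
    rw [map_mul, aeval_C, map_prod]
    congr 1
    rw [hprod fun a => (u - algebraMap k K a) ^ (P i).roots.count a]
    refine Finset.prod_congr rfl fun a _ => ?_
    rw [map_pow, map_sub, aeval_X, aeval_C]

end Pool.Agent.P8H50.SS
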