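import Pool.Agent.P8H50.SS.Loc
import Pool.Agent.P8H50.SS.Cls

/-!
Special sets over grids (helper50): the data of a system of covers.
-/

set_option autoImplicit false

open FF Pool.Agent.W603.LV Pool.Agent.W602.GT

namespace Pool.Agent.P8H50.SS

open Pool.Agent.P8H50.SG (lf nu)

/-- the branch points and exponents of a system of `r` cyclic covers of a product of `n` projective
lines -/
structure Cmb (k : Type) [Field k] (n r : ℕ) where
  q : Fin n → ℕ
  a : ∀ j, Fin (q j) → k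
  e : Fin r → ∀ j, Fin (q j) → ℕ
  m : Fin r → ℕ
  f : Fin r → Fin n → ℕ
  hq : ∀ j, 3 ≤ q j
  ha : ∀ j, Function.Injective (a j)
  he : ∀ j l, ∃ i, 1 ≤ e i j l
  hf : ∀ i j, ∑ l, e i j l = m i * f i j
  hm : ∀ i, 0 < m i
  hs : ∑ j, ((∑ i, f i j : ℕ) : ℝ) / ((q j : ℝ) - 2) < 1

namespace Cmb

variable {k : Type} [Field k] {n r : ℕ} (C : Cmb k n r)

/-- points of the cover with `z i ≠ 0` -/
def Pt {K : Type} [Field K] [Algebra k K] (x : Fin n → K) (z : Fin r → K) : Prop :=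
  ∀ i, z i ≠ 0 ∧ z i ^ C.m i = ∏ j, ∏ l, SG.hf 1 (-(C.a j l)) (x j) 1 ^ C.e i j l

variable {C} {K : Type} [Field K] [Algebra k K] {x : Fin n → K} {z : Fin r → K}

theorem Pt.ne (h : C.Pt x z) (j : Fin n) (l : Fin (C.q j)) : lf 1 (-(C.a j l)) (x j) ≠ 0 := by
  intro h0
  obtain ⟨i, hi⟩ := C.he j l
  obtain ⟨h1, h2⟩ := h i
  have h3 : z i ^ C.m i = 0 := by
    rw [h2]
    refine Finset.prod_eq_zero (Finset.mem_univ j) (Finset.prod_eq_zero (Finset.mem_univ l) ?_)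
    rw [SG.hf_one, h0, zero_pow (by omega)]
  exact h1 (pow_eq_zero_iff (C.hm i).ne' |>.1 h3)

open scoped Classical in
/-- the constant coordinates -/
theorem Pt.split [IsAlgClosed k] (h : C.Pt x z) (i : Fin r) : ∃ κ : k, κ ≠ 0 ∧
    z i ^ C.m i = algebraMap k K κ * ∏ j : {j // Transcendental k (x j)},
      ∏ l, lf 1 (-(C.a j.1 l)) (x j.1) ^ C.e i j.1 l := by
  classical
  have hconst : ∀ j : {j // ¬ Transcendental k (x j)},
      ∃ c : k, ∏ l, SG.hf 1 (-(C.a j.1 l)) (x j.1) 1 ^ C.e i j.1 l = algebraMap k K c := by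
    rintro ⟨j, hj⟩
    have h1 : IsAlgebraic k (x j) := by
      by_contra h
      exact hj h
    obtain ⟨c, hc⟩ := const_of_algebraic h1
    refine ⟨∏ l, (c - C.a j l) ^ C.e i j l, ?_⟩
    simp only [map_prod, map_pow, map_sub]
    refine Finset.prod_congr rfl fun l _ => ?_
    rw [SG.hf_one, lf_eq, hc]
  choose c hc using hconst
  have h2 : z i ^ C.m i = algebraMap k K (∏ j, c j) *
      ∏ j : {j // Transcendental k (x j)}, ∏ l, lf 1 (-(C.a j.1 l)) (x j.1) ^ C.e i j.1 l := by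
    rw [(h i).2, ← Fintype.prod_subtype_mul_prod_subtype (fun j => Transcendental k (x j)),
      mul_comm, map_prod]
    congr 1
    · exact Finset.prod_congr rfl fun j _ => hc j
    · simp only [SG.hf_one]
  refine ⟨_, ?_, h2⟩
  intro h0
  rw [h0, map_zero, zero_mul] at h2
  exact (h i).1 (pow_eq_zero_iff (C.hm i).ne' |>.1 h2)

/-- the order of one root -/
theorem ord_one {ι : Type} [Fintype ι] {q : ι → ℕ} {a : ∀ j, Fin (q j) → k} {u : ι → K}
    {e : ∀ j, Fin (q j) → ℕ} {m : ℕ} (hm : 0 < m) {f : ι → ℕ}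
    (hf : ∀ j, ∑ l, e j l = m * f j) (hL : ∀ j l, lf 1 (-(a j l)) (u j) ≠ 0) {z κ : K}
    (hκ0 : κ ≠ 0) (hz : z ^ m = κ * ∏ j, ∏ l, lf 1 (-(a j l)) (u j) ^ e j l) (P : Place k K)
    (hκ : P.ord κ = 0) :
    0 ≤ P.ord z + ∑ j, (f j : ℤ) * nu P (u j) ∧
      ((∃ j l, 1 ≤ e j l ∧ 0 < P.ord (lf 1 (-(a j l)) (u j)) + nu P (u j)) →
        1 ≤ P.ord z + ∑ j, (f j : ℤ) * nu P (u j)) := by
  classical
  have hprod : ∀ j, (∏ l, lf 1 (-(a j l)) (u j) ^ e j l) ≠ 0 := fun j =>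
    Finset.prod_ne_zero_iff.2 fun l _ => pow_ne_zero _ (hL j l)
  have h1 : (m : ℤ) * P.ord z =
      ∑ j, ∑ l, (e j l : ℤ) * P.ord (lf 1 (-(a j l)) (u j)) := by
    have h2 := congrArg P.ord hz
    rw [P.ord_pow, P.ord_mul hκ0 (Finset.prod_ne_zero_iff.2 fun j _ => hprod j), hκ, zero_add,
      ord_prod' P _ _ fun j _ => hprod j] at h2
    rw [h2]
    refine Finset.sum_congr rfl fun j _ => ?_
    rw [ord_prod' P _ _ fun l _ => pow_ne_zero _ (hL j l)]
    exact Finset.sum_congr rfl fun l _ => P.ord_pow _ _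
  have h2 : (m : ℤ) * (P.ord z + ∑ j, (f j : ℤ) * nu P (u j)) =
      ∑ j, ∑ l, (e j l : ℤ) * (P.ord (lf 1 (-(a j l)) (u j)) + nu P (u j)) := by
    rw [mul_add, h1, Finset.mul_sum, ← Finset.sum_add_distrib]
    refine Finset.sum_congr rfl fun j _ => ?_
    have h3 : (∑ l, (e j l : ℤ)) = m * f j := by exact_mod_cast hf j
    simp only [mul_add, Finset.sum_add_distrib]
    rw [← Finset.sum_mul, h3]
    ring
  have hnn : ∀ j l, 0 ≤ (e j l : ℤ) * (P.ord (lf 1 (-(a j l)) (u j)) + nu P (u j)) :=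
    fun j l => mul_nonneg (Int.natCast_nonneg _) (SG.ord_lf_nonneg P _ _ _ (hL j l))
  have hm' : (0 : ℤ) < m := by exact_mod_cast hm
  constructor
  · by_contra hcon
    push Not at hcon
    have h3 : (m : ℤ) * (P.ord z + ∑ j, (f j : ℤ) * nu P (u j)) < 0 :=
      mul_neg_of_pos_of_neg hm' hcon
    rw [h2] at h3
    exact absurd (Finset.sum_nonneg fun j _ => Finset.sum_nonneg fun l _ => hnn j l) (not_le.2 h3)
  · rintro ⟨j0, l0, he0, h0⟩
    have h4 : 0 < (m : ℤ) * (P.ord z + ∑ j, (f j : ℤ) * nu P (u j)) := by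
      rw [h2]
      refine lt_of_lt_of_le ?_ (Finset.single_le_sum
        (f := fun j => ∑ l, (e j l : ℤ) * (P.ord (lf 1 (-(a j l)) (u j)) + nu P (u j)))
        (fun j _ => Finset.sum_nonneg fun l _ => hnn j l) (Finset.mem_univ j0))
      refine lt_of_lt_of_le ?_ (Finset.single_le_sum
        (f := fun l => (e j0 l : ℤ) * (P.ord (lf 1 (-(a j0 l)) (u j0)) + nu P (u j0)))
        (fun l _ => hnn j0 l) (Finset.mem_univ l0))
      have : (1 : ℤ) ≤ e j0 l0 := by exact_mod_cast he0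
      exact mul_pos (by omega) h0
    have h5 : 0 < P.ord z + ∑ j, (f j : ℤ) * nu P (u j) := pos_of_mul_pos_right h4 hm'.le
    omega

/-- the orders of the product of the roots -/
theorem ord_all {ι : Type} [Fintype ι] {q : ι → ℕ} {a : ∀ j, Fin (q j) → k} {u : ι → K}
    {e : Fin r → ∀ j, Fin (q j) → ℕ} {m : Fin r → ℕ} (he : ∀ j l, ∃ i, 1 ≤ e i j l)
    (hm : ∀ i, 0 < m i) {f : Fin r → ι → ℕ} (hf : ∀ i j, ∑ l, e i j l = m i * f i j)
    (hL : ∀ j l, lf 1 (-(a j l)) (u j) ≠ 0) {z : Fin r → K} (hz0 : ∀ i, z i ≠ 0) {κ : Fin r → k}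
    (hκ : ∀ i, κ i ≠ 0)
    (hz : ∀ i, z i ^ m i = algebraMap k K (κ i) * ∏ j, ∏ l, lf 1 (-(a j l)) (u j) ^ e i j l)
    (P : Place k K) :
    0 ≤ P.ord (∏ i, z i) + ∑ j, ((∑ i, f i j : ℕ) : ℤ) * nu P (u j) ∧
      ((∃ j l, 0 < P.ord (lf 1 (-(a j l)) (u j)) + nu P (u j)) →
        1 ≤ P.ord (∏ i, z i) + ∑ j, ((∑ i, f i j : ℕ) : ℤ) * nu P (u j)) := by
  classical
  have h1 : P.ord (∏ i, z i) + ∑ j, ((∑ i, f i j : ℕ) : ℤ) * nu P (u j) =
      ∑ i, (P.ord (z i) + ∑ j, (f i j : ℤ) * nu P (u j)) := by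
    rw [ord_prod' P _ _ fun i _ => hz0 i, Finset.sum_add_distrib]
    congr 1
    rw [Finset.sum_comm]
    refine Finset.sum_congr rfl fun j _ => ?_
    push_cast
    rw [Finset.sum_mul]
  rw [h1]
  have h2 : ∀ i, 0 ≤ P.ord (z i) + ∑ j, (f i j : ℤ) * nu P (u j) := fun i =>
    (ord_one (hm i) (hf i) hL ((_root_.map_ne_zero _).2 (hκ i)) (hz i) P
      (P.ord_const (hκ i))).1
  refine ⟨Finset.sum_nonneg fun i _ => h2 i, ?_⟩
  rintro ⟨j, l, h3⟩
  obtain ⟨i, hi⟩ := he j l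
  have h4 := (ord_one (hm i) (hf i) hL ((_root_.map_ne_zero _).2 (hκ i)) (hz i) P
    (P.ord_const (hκ i))).2 ⟨j, l, hi, h3⟩
  exact h4.trans (Finset.single_le_sum (f := fun i => P.ord (z i) +
    ∑ j, (f i j : ℤ) * nu P (u j)) (fun i _ => h2 i) (Finset.mem_univ i))

end Cmb

open Polynomial in
/-- the data of a cover from the polynomials -/
theorem IsGridCover.exists_cmb {k K : Type} [Field k] [IsAlgClosed k] [Field K] [Algebra k K]
    (h : IsGridCover k K) : ∃ (n r : ℕ) (C : Cmb k n r) (x : Fin n → K) (z : Fin r → K), C.Pt x z ∧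
      Algebra.IsAlgebraic (IntermediateField.adjoin k (Set.range x)) K := by
  classical
  obtain ⟨n, r, m, P, x, z, hm, h1, hq, h2, h3, h5⟩ := h
  have hP : ∀ i j, P i j ≠ 0 := fun i j => (h1 i j).1
  choose a e ha he hsum hval using fun j => exists_roots (fun i => P i j) fun i => hP i j
  have hdeg : ∀ i j, (P i j).natDegree = m i * ((P i j).natDegree / m i) := fun i j =>
    (Nat.mul_div_cancel' (h1 i j).2).symm
  choose c hc using fun i => IsAlgClosed.exists_pow_nat_eq (∏ j, (P i j).leadingCoeff)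
    (Nat.lt_of_lt_of_le Nat.zero_lt_one (hm i))
  have hc0 : ∀ i, c i ≠ 0 := by
    intro i h0
    have h6 := hc i
    rw [h0, zero_pow (by have := hm i; omega)] at h6
    exact (Finset.prod_ne_zero_iff.2 fun j _ => leadingCoeff_ne_zero.2 (hP i j)) h6.symm
  have hcK : ∀ i, algebraMap k K (c i) ≠ 0 := fun i => (_root_.map_ne_zero _).2 (hc0 i)
  refine ⟨n, r,
    { q := fun j => ((∏ i, P i j).rootSet k).ncard
      a := a
      e := fun i j => e j i
      m := m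
      f := fun i j => (P i j).natDegree / m i
      hq := hq
      ha := ha
      he := he
      hf := fun i j => by rw [hsum, ← hdeg]
      hm := fun i => by have := hm i; omega
      hs := ?_ }, x, fun i => (algebraMap k K (c i))⁻¹ * z i, fun i =>
        ⟨mul_ne_zero (inv_ne_zero (hcK i)) (h3 i).1, ?_⟩, h5⟩
  · refine lt_of_le_of_lt (le_of_eq ?_) h2
    refine Finset.sum_congr rfl fun j _ => ?_
    congr 1
    push_cast
    refine Finset.sum_congr rfl fun i _ => ?_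
    have h7 : ((P i j).natDegree : ℝ) = m i * (((P i j).natDegree / m i : ℕ) : ℝ) := by
      exact_mod_cast hdeg i j
    have hm' : (m i : ℝ) ≠ 0 := by
      have := hm i
      exact_mod_cast (by omega : m i ≠ 0)
    rw [eq_div_iff hm', mul_comm]
    exact h7.symm
  · change ((algebraMap k K (c i))⁻¹ * z i) ^ m i =
      ∏ j, ∏ l, SG.hf 1 (-(a j l)) (x j) 1 ^ e j i l
    have h6 : ∀ j l, SG.hf 1 (-(a j l)) (x j) 1 = x j - algebraMap k K (a j l) := by
      intro j l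
      rw [SG.hf_one, lf_eq]
    simp only [h6]
    rw [mul_pow, (h3 i).2, Finset.prod_congr rfl fun j _ => hval j i K (x j),
      Finset.prod_mul_distrib, ← map_prod, ← hc i, map_pow, inv_pow, ← mul_assoc,
      inv_mul_cancel₀ (pow_ne_zero _ (hcK i)), one_mul]

end Pool.Agent.P8H50.SS
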