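import Pool.Agent.P8H50.SS.Ell
import Pool.Agent.Q24.SF.W3

/-!
Special sets over grids (helper50): curves of genus `≤ 1` as closures of entire curves (a copy of
`Q103/SF/Conv.lean`)
-/

set_option autoImplicit false
set_option maxHeartbeats 400000
set_option linter.overlappingInstances false
set_option linter.unusedSectionVars false

namespace Pool.Agent.P8H50.SS.SF

open Pool.Agent.Q103.SF

open FF Filter
open Pool.Agent.W602.GT Metric Topology
open Pool.Agent.Y221.PD
open Pool.Agent.Y221.BD (EntireCurve)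
open Pool.Agent.Y216 (OnVar)
open Pool.Agent.W603.LV (canDeg)
open Pool.Agent.Q271.RC (Nonconst)

variable {M : ℕ} {K : Type} [Field K] [Algebra ℂ K] {x : Fin (M + 1) → K}

theorem vanOn_eq {u f : Fin (M + 1) → ℂ → ℂ} (hu : ∀ i, Differentiable ℂ (u i))
    (hf : ∀ i, Differentiable ℂ (f i)) {k0 : Fin (M + 1)} {t0 : ℂ} (h0 : u k0 t0 ≠ 0)
    (hfu : ∀ t, (∃ k, u k t ≠ 0) → ∃ c : ℂ, c ≠ 0 ∧ ∀ i, u i t = c * f i t) :
    vanOn Set.univ (fun t i => u i t) = vanOn Set.univ (fun t i => f i t) := by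
  have hcl : AnalyticOnNhd ℂ (u k0) Set.univ := (hu k0).differentiableOn.analyticOnNhd isOpen_univ
  have hev : ∀ t, ∀ᶠ s in 𝓝[≠] t, u k0 s ≠ 0 := by
    intro t
    rcases (hcl t (Set.mem_univ _)).eventually_eq_zero_or_eventually_ne_zero with h2 | h2
    · exfalso
      have := hcl.eq_of_eventuallyEq (f := u k0) (g := fun _ => 0) analyticOnNhd_const h2
      exact h0 (congrFun this t0)
    · exact h2
  have hpt : ∀ {G : MvPolynomial (Fin (M + 1)) ℂ}, IsForm G → ∀ t, u k0 t ≠ 0 →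
      (MvPolynomial.eval (fun i => u i t) G = 0 ↔ MvPolynomial.eval (fun i => f i t) G = 0) := by
    intro G hG t ht
    obtain ⟨e, he⟩ := hG
    obtain ⟨c, hc, hcf⟩ := hfu t ⟨k0, ht⟩
    have h2 := eval_scale he c hcf
    rw [h2, mul_eq_zero, or_iff_right (pow_ne_zero _ hc)]
  have hlim : ∀ (g : ℂ → ℂ), Continuous g → (∀ t, u k0 t ≠ 0 → g t = 0) → ∀ t, g t = 0 := by
    intro g hg h t
    have h3 : Tendsto g (𝓝[≠] t) (𝓝 (g t)) := hg.continuousAt.mono_left nhdsWithin_le_nhds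
    have h4 : Tendsto g (𝓝[≠] t) (𝓝 0) := tendsto_const_nhds.congr' (by
      filter_upwards [hev t] with s hs
      exact (h s hs).symm)
    exact tendsto_nhds_unique h3 h4
  ext G
  constructor
  · rintro ⟨hG, h⟩
    exact ⟨hG, fun t _ => hlim (fun t => MvPolynomial.eval (fun i => f i t) G)
      ((MvPolynomial.continuous_eval G).comp (continuous_pi fun i => (hf i).continuous))
      (fun s hs => (hpt hG s hs).1 (h s trivial)) t⟩
  · rintro ⟨hG, h⟩
    exact ⟨hG, fun t _ => hlim (fun t => MvPolynomial.eval (fun i => u i t) G)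
      ((MvPolynomial.continuous_eval G).comp (continuous_pi fun i => (hu i).continuous))
      (fun s hs => (hpt hG s hs).2 (h s trivial)) t⟩

theorem curve_of_u {L : Type} [Field L] [Algebra ℂ L] {v : Fin (M + 1) → L} (hv : OnVar ℂ x v)
    (hn : Nonconst v) {u : Fin (M + 1) → ℂ → ℂ} (hu : ∀ i, Differentiable ℂ (u i))
    (hG : ∀ G : MvPolynomial (Fin (M + 1)) ℂ, IsForm G →
      ((∀ t, MvPolynomial.eval (fun i => u i t) G = 0) ↔ val v G = 0)) :
    ∃ f, EntireCurve x f ∧ vanOn Set.univ (fun t i => f i t) = van v := by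
  classical
  obtain ⟨i, j, hj, hij⟩ := hn
  have hX : ∀ i, IsForm (MvPolynomial.X i : MvPolynomial (Fin (M + 1)) ℂ) := fun i =>
    ⟨1, MvPolynomial.isHomogeneous_X ℂ i⟩
  obtain ⟨a, ha⟩ : ∃ a, u j a ≠ 0 := by
    by_contra hcon
    push Not at hcon
    apply hj
    have h1 := (hG (MvPolynomial.X j) (hX j)).1 (fun t => by
      rw [MvPolynomial.eval_X]
      exact hcon t)
    unfold Pool.Agent.W602.GT.val at h1
    rwa [MvPolynomial.aeval_X] at h1
  obtain ⟨b, hb⟩ : ∃ b, u i a * u j b ≠ u j a * u i b := by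
    by_contra hcon
    push Not at hcon
    have hF : IsForm (MvPolynomial.C (u i a) * MvPolynomial.X j -
        MvPolynomial.C (u j a) * MvPolynomial.X i : MvPolynomial (Fin (M + 1)) ℂ) := by
      refine ⟨1, ?_⟩
      have h1 := (MvPolynomial.isHomogeneous_C (Fin (M + 1)) (u i a)).mul
        (MvPolynomial.isHomogeneous_X ℂ j)
      have h2 := (MvPolynomial.isHomogeneous_C (Fin (M + 1)) (u j a)).mul
        (MvPolynomial.isHomogeneous_X ℂ i)
      rw [zero_add] at h1 h2
      exact h1.sub h2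
    have h1 := (hG _ hF).1 (fun t => by
      simp only [map_sub, map_mul, MvPolynomial.eval_C, MvPolynomial.eval_X]
      rw [hcon t, sub_self])
    unfold Pool.Agent.W602.GT.val at h1
    simp only [map_sub, map_mul, MvPolynomial.aeval_X, MvPolynomial.algHom_C] at h1
    apply hij
    have h2 : v i / v j = algebraMap ℂ L (u i a / u j a) := by
      have h3 : algebraMap ℂ L (u j a) ≠ 0 := (map_ne_zero _).2 ha
      rw [map_div₀, div_eq_div_iff hj h3]
      linear_combination -h1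
    rw [h2]
    exact isAlgebraic_algebraMap _
  obtain ⟨f, hf, hfu⟩ := curve_of_entire (x := x) hu
    (fun G hGf hxG t => (hG G hGf).2 (hv.2 G hGf hxG) t) hb
  refine ⟨f, hf, ?_⟩
  rw [← vanOn_eq hu hf.hol ha hfu]
  ext G
  constructor
  · rintro ⟨h1, h2⟩
    exact ⟨h1, (hG G h1).1 fun t => h2 t trivial⟩
  · rintro ⟨h1, h2⟩
    exact ⟨h1, fun t _ => (hG G h1).2 h2 t⟩

/-- the curves of genus `≤ 1` are closures of entire curves -/
theorem curve_of_low (hlow : S_low) {V : Set (MvPolynomial (Fin (M + 1)) ℂ)}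
    (hV : V ∈ lowCurves x) :
    ∃ f, EntireCurve x f ∧ vanOn Set.univ (fun t i => f i t) = V := by
  obtain ⟨L, _, _, _, v, hv, hgen, hc, rfl⟩ := hV
  have hv0 : v ≠ 0 := by
    obtain ⟨j, hj⟩ := hv.1
    intro h
    exact hj (congrFun h j)
  obtain ⟨u, hu, hG⟩ := hlow L hc M v hv0 hgen
  exact curve_of_u hv (nonconst_of_low hv hgen) hu hG

/-- maps from elliptic curves give entire curves -/
theorem curve_of_ell (hw : S_wei) {E : Type} [Field E] [Algebra ℂ E] [IsFF ℂ E]
    (hE : IsElliptic E) {v : Fin (M + 1) → E} (hv : OnVar ℂ x v) (hn : Nonconst v) :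
    ∃ f, EntireCurve x f ∧ vanOn Set.univ (fun t i => f i t) = van v := by
  obtain ⟨a, b, y, z, hab, hyz, hgen⟩ := hE
  obtain ⟨X, Y, Z, hX, hY, hZ, hE, hc⟩ := hw a b hab
  obtain ⟨f, hf, hG⟩ := Pool.Agent.Q24.SF.W3h.ell_case IsFF.trdeg hyz hgen hX hY hZ hE hc v
  exact curve_of_u hv hn hf (fun G hG' => by
    obtain ⟨d, hd⟩ := hG'
    exact hG d G hd)

/-- the curves of genus `≤ 1` are images of elliptic curves -/
theorem ell_of_low {V : Set (MvPolynomial (Fin (M + 1)) ℂ)} (hV : V ∈ lowCurves x) :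
    ∃ (E : Type) (_ : Field E) (_ : Algebra ℂ E) (_ : IsFF ℂ E) (v : Fin (M + 1) → E),
      IsElliptic E ∧ OnVar ℂ x v ∧ Nonconst v ∧ van v = V := by
  obtain ⟨L, _, _, _, v, hv, hgen, hc, rfl⟩ := hV
  obtain ⟨E, _, _, _, σ, hE⟩ := exists_ell hc
  have hval : ∀ G : MvPolynomial (Fin (M + 1)) ℂ, val (fun i => σ (v i)) G = σ (val v G) := by
    intro G
    unfold Pool.Agent.W602.GT.val
    rw [MvPolynomial.comp_aeval_apply]
  have hiff : ∀ G : MvPolynomial (Fin (M + 1)) ℂ, val (fun i => σ (v i)) G = 0 ↔ val v G = 0 := by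
    intro G
    rw [hval, map_eq_zero]
  refine ⟨E, inferInstance, inferInstance, inferInstance, fun i => σ (v i), hE, ⟨?_, ?_⟩, ?_, ?_⟩
  · obtain ⟨j, hj⟩ := hv.1
    exact ⟨j, (map_ne_zero σ).2 hj⟩
  · intro G hG hGx
    exact (hiff G).2 (hv.2 G hG hGx)
  · obtain ⟨i, j, hj, hij⟩ := nonconst_of_low hv hgen
    refine ⟨i, j, (map_ne_zero σ).2 hj, ?_⟩
    rw [← map_div₀]
    intro h
    exact hij ((isAlgebraic_algHom_iff σ σ.injective).1 h)
  · ext G
    exact and_congr_right fun _ => hiff G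

end Pool.Agent.P8H50.SS.SF
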