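import Pool.Agent.P8H50.SS.Ent
import Pool.Agent.Q96.HE.Main

/-!
Special sets over grids (helper50): finiteness of the curves of genus at most one, and the degrees of
curves, by noetherian induction.
-/

set_option autoImplicit false
set_option maxHeartbeats 400000
set_option linter.overlappingInstances false
set_option linter.unusedSectionVars false

namespace Pool.Agent.P8H50.SS.SF

open Pool.Agent.Q103.SF
open FF
open Pool.Agent.W602.GT
open Pool.Agent.Y216 (OnVar)
open Pool.Agent.W603.LV (canDeg)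
open Pool.Agent.W603.PV (pht)
open Pool.Agent.TH466.QG (SubOf)
open Pool.Agent.P8H50.SS (HypMod)
open Pool.Agent.Q96.HE (eul vanForms chartIdeal mem_chart mem_chart_hom drop chart_trdeg curve_map
  sameCurve_of_van)
open Pool.Agent.Q96.LS (CentreIn LiesIn nonconst_of Norm pht_pos)
open Pool.Agent.Q271.RC (IsGeneric IsPoint Nonconst)

variable {M : ℕ} {K : Type} [Field K] [Algebra ℂ K] {x : Fin (M + 1) → K}

/-- no place has its centre in the empty set -/
theorem not_centre {L : Type} [Field L] [Algebra ℂ L] {v : Fin (M + 1) → L}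
    (hv : ∃ j, v j ≠ 0) (P : Place ℂ L) :
    ¬ CentreIn ({1} : Set (MvPolynomial (Fin (M + 1)) ℂ)) v P := by
  classical
  intro h
  obtain ⟨j0, hj0⟩ := hv
  let s : Finset (Fin (M + 1)) := Finset.univ.filter fun j => v j ≠ 0
  have hs : s.Nonempty := ⟨j0, Finset.mem_filter.2 ⟨Finset.mem_univ _, hj0⟩⟩
  obtain ⟨j, hj, hmin⟩ := s.exists_min_image (fun j => P.ord (v j)) hs
  have hN : Norm P v (P.ord (v j)) := ⟨fun i hi =>
    hmin i (Finset.mem_filter.2 ⟨Finset.mem_univ _, hi⟩), j, (Finset.mem_filter.1 hj).2, rfl⟩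
  rcases h _ hN 1 rfl 0 (MvPolynomial.isHomogeneous_one _ _) with h1 | h1
  · rw [map_one] at h1
    exact one_ne_zero h1
  · rw [map_one, P.ord_one] at h1
    simp at h1

theorem eul_one {L : Type} [Field L] [Algebra ℂ L] [IsFF ℂ L] {v : Fin (M + 1) → L}
    (hv : ∃ j, v j ≠ 0) :
    eul ({1} : Set (MvPolynomial (Fin (M + 1)) ℂ)) v = canDeg ℂ L := by
  unfold eul
  have h1 : {P : Place ℂ L | CentreIn ({1} : Set (MvPolynomial (Fin (M + 1)) ℂ)) v P} = ∅ := by
    ext P
    simp only [Set.mem_ofPred_eq, Set.mem_empty_iff_false, iff_false]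
    exact not_centre hv P
  rw [h1, Set.ncard_empty]
  simp

theorem not_lies {L : Type} [Field L] [Algebra ℂ L] {v : Fin (M + 1) → L} :
    ¬ LiesIn ({1} : Set (MvPolynomial (Fin (M + 1)) ℂ)) v := by
  intro h
  have h1 := h 1 rfl
  rw [map_one] at h1
  exact one_ne_zero h1

/-- curves of general type -/
theorem pos_of_gt {L : Type} [Field L] [Algebra ℂ L] [IsFF ℂ L] (h : GeneralType ℂ L 1) :
    0 < canDeg ℂ L := by
  obtain ⟨h1, N, hN, ω, h2, h3, h4⟩ := h
  have h5 : LogGeneralType ℂ L 1 (fun _ => False) := by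
    refine ⟨h1, N, hN, ω, h2, fun P hP j D hD => ?_, fun P hP _ j => h3 P hP j, h4⟩
    refine h3 P hP j D fun i f hf => ?_
    by_cases hf0 : f = 0
    · rw [hf0, map_zero]
      exact Or.inl rfl
    have h6 := P.reg_mul (hD i f) hf
    rwa [div_mul_cancel₀ _ hf0] at h6
  have h6 := Pool.Agent.Q96.HE.pos_of_lgt (Bd := fun _ : Place ℂ L => False) (by simp) h5
  simpa using h6

theorem nonconst_of_low {L : Type} [Field L] [Algebra ℂ L] [IsFF ℂ L] {v : Fin (M + 1) → L}
    (hv : OnVar ℂ x v) (hgen : coords ℂ v = ⊤) : Nonconst v :=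
  Pool.Agent.Q96.LS.nonconst_of ⟨hv.1, hgen⟩ (by
    rw [IsFF.trdeg (k := ℂ) (K := L)]
    simp)

/-- the curves of genus at most one in the closed subset of the chart which is given by `q` -/
def LowIn (x : Fin (M + 1) → K) (j : Fin (M + 1))
    (q : Ideal (MvPolynomial (Fin (M + 1)) ℂ)) : Set (Set (MvPolynomial (Fin (M + 1)) ℂ)) :=
  {V | ∃ (L : Type) (_ : Field L) (_ : Algebra ℂ L) (_ : IsFF ℂ L) (v : Fin (M + 1) → L),
    OnVar ℂ x v ∧ coords ℂ v = ⊤ ∧ canDeg ℂ L ≤ 0 ∧ V = van v ∧ v j ≠ 0 ∧ q ≤ chartIdeal j v}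

/-- the degree bound in the closed subset of the chart which is given by `q` -/
def BddIn (x : Fin (M + 1) → K) (j : Fin (M + 1))
    (q : Ideal (MvPolynomial (Fin (M + 1)) ℂ)) : Prop :=
  ∃ A : ℕ, ∀ (L : Type) [Field L] [Algebra ℂ L] [IsFF ℂ L] (v : Fin (M + 1) → L), OnVar ℂ x v →
    Nonconst v → v j ≠ 0 → q ≤ chartIdeal j v → pht ℂ v ≤ A * canDeg ℂ L ∨ van v ∈ lowCurves x

theorem bdd_mono {L : Type} [Field L] [Algebra ℂ L] [IsFF ℂ L] {v : Fin (M + 1) → L}
    (hn : Nonconst v) {A B : ℕ} (hAB : A ≤ B) (h : pht ℂ v ≤ A * canDeg ℂ L) :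
    pht ℂ v ≤ B * canDeg ℂ L := by
  have h1 := pht_pos v hn
  have h2 : 0 < canDeg ℂ L := by
    by_contra hcon
    rw [not_lt] at hcon
    have := mul_nonpos_of_nonneg_of_nonpos (Int.natCast_nonneg A) hcon
    omega
  exact h.trans (mul_le_mul_of_nonneg_right (by exact_mod_cast hAB) h2.le)

/-- **Noetherian induction.** -/
theorem noe (hH : Hered x) (j : Fin (M + 1)) (q : Ideal (MvPolynomial (Fin (M + 1)) ℂ)) :
    (LowIn x j q).Finite ∧ BddIn x j q := by
  classical
  induction q using WellFoundedGT.induction with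
  | _ q ih =>
  -- covers by smaller closed subsets
  have hcov : ∀ q1 q2 : Ideal (MvPolynomial (Fin (M + 1)) ℂ), q < q1 → q < q2 →
      (∀ (L : Type) [Field L] [Algebra ℂ L] (v : Fin (M + 1) → L), OnVar ℂ x v → v j ≠ 0 →
        q ≤ chartIdeal j v → q1 ≤ chartIdeal j v ∨ q2 ≤ chartIdeal j v) →
      (LowIn x j q).Finite ∧ BddIn x j q := by
    intro q1 q2 hq1 hq2 h
    obtain ⟨f1, A1, b1⟩ := ih q1 hq1
    obtain ⟨f2, A2, b2⟩ := ih q2 hq2
    refine ⟨(f1.union f2).subset ?_, A1 + A2, ?_⟩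
    · rintro V ⟨L, i1, i2, i3, v, hv, hgen, hc, rfl, hj, hle⟩
      rcases h L v hv hj hle with h1 | h1
      · exact Or.inl ⟨L, i1, i2, i3, v, hv, hgen, hc, rfl, hj, h1⟩
      · exact Or.inr ⟨L, i1, i2, i3, v, hv, hgen, hc, rfl, hj, h1⟩
    · intro L _ _ _ v hv hn hj hle
      rcases h L v hv hj hle with h1 | h1
      · exact (b1 L v hv hn hj h1).imp (bdd_mono hn (Nat.le_add_right _ _)) id
      · exact (b2 L v hv hn hj h1).imp (bdd_mono hn (Nat.le_add_left _ _)) id
  have hcov1 : ∀ G : MvPolynomial (Fin (M + 1)) ℂ, G ∉ q →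
      (∀ (L : Type) [Field L] [Algebra ℂ L] (v : Fin (M + 1) → L), OnVar ℂ x v → v j ≠ 0 →
        q ≤ chartIdeal j v → G ∈ chartIdeal j v) →
      (LowIn x j q).Finite ∧ BddIn x j q := by
    intro G hG h
    have h1 : q < q ⊔ Ideal.span {G} := by
      refine lt_of_le_of_ne le_sup_left fun h2 => hG ?_
      rw [h2]
      exact Ideal.mem_sup_right (Ideal.mem_span_singleton_self G)
    refine hcov _ _ h1 h1 fun L _ _ v hv hj hle => Or.inl (sup_le hle ?_)
    rw [Ideal.span_singleton_le_iff_mem]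
    exact h L v hv hj hle
  by_cases hp : q.IsPrime
  swap
  · rw [Ideal.not_isPrime_iff] at hp
    rcases hp with hp | ⟨F, hF, G, hG, hFG⟩
    · subst hp
      refine ⟨?_, 0, ?_⟩
      · refine Set.Finite.subset Set.finite_empty ?_
        rintro V ⟨L, i1, i2, i3, v, hv, hgen, hc, rfl, hj, hle⟩
        exact absurd (top_le_iff.1 hle) (inferInstance : (chartIdeal j v).IsPrime).ne_top
      · intro L _ _ _ v hv hn hj hle
        exact absurd (top_le_iff.1 hle) (inferInstance : (chartIdeal j v).IsPrime).ne_top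
    · have h1 : ∀ G : MvPolynomial (Fin (M + 1)) ℂ, G ∉ q → q < q ⊔ Ideal.span {G} := by
        intro G hG
        refine lt_of_le_of_ne le_sup_left fun h2 => hG ?_
        rw [h2]
        exact Ideal.mem_sup_right (Ideal.mem_span_singleton_self G)
      refine hcov _ _ (h1 F hF) (h1 G hG) fun L _ _ v hv hj hle => ?_
      rcases (inferInstance : (chartIdeal j v).IsPrime).mem_or_mem (hle hFG) with h2 | h2
      · left
        refine sup_le hle ?_
        rwa [Ideal.span_singleton_le_iff_mem]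
      · right
        refine sup_le hle ?_
        rwa [Ideal.span_singleton_le_iff_mem]
  by_cases hj1 : (MvPolynomial.X j - 1 : MvPolynomial (Fin (M + 1)) ℂ) ∈ q
  swap
  · refine hcov1 _ hj1 fun L _ _ v hv hj hle => ?_
    rw [mem_chart, map_sub, MvPolynomial.aeval_X, map_one, div_self hj, sub_self]
  by_cases hform : ∀ G : MvPolynomial (Fin (M + 1)) ℂ, IsForm G → val x G = 0 → G ∈ q
  swap
  · push Not at hform
    obtain ⟨G, ⟨d, hGd⟩, hGx, hGq⟩ := hform
    refine hcov1 G hGq fun L _ _ v hv hj hle => ?_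
    rw [mem_chart_hom hj hGd]
    exact hv.2 G ⟨d, hGd⟩ hGx
  -- the generic point
  let B := MvPolynomial (Fin (M + 1)) ℂ ⧸ q
  let E := FractionRing B
  have hBinj : Function.Injective (algebraMap B E) := IsFractionRing.injective B E
  let z : Fin (M + 1) → E := fun i => algebraMap B E (Ideal.Quotient.mk q (MvPolynomial.X i))
  have hzval : ∀ G : MvPolynomial (Fin (M + 1)) ℂ, val z G = algebraMap B E
      (Ideal.Quotient.mk q G) := by
    intro G
    have h1 : (MvPolynomial.aeval z : MvPolynomial (Fin (M + 1)) ℂ →ₐ[ℂ] E) =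
        (IsScalarTower.toAlgHom ℂ B E).comp (Ideal.Quotient.mkₐ ℂ q) := by
      apply MvPolynomial.algHom_ext
      intro i
      rw [MvPolynomial.aeval_X]
      rfl
    change MvPolynomial.aeval z G = _
    rw [h1]
    rfl
  have hz0 : ∀ G : MvPolynomial (Fin (M + 1)) ℂ, val z G = 0 ↔ G ∈ q := by
    intro G
    rw [hzval, map_eq_zero_iff _ hBinj, Ideal.Quotient.eq_zero_iff_mem]
  have hzj : z j = 1 := by
    have h1 := (hz0 _).2 hj1
    unfold Pool.Agent.W602.GT.val at h1
    rw [map_sub, MvPolynomial.aeval_X, map_one, sub_eq_zero] at h1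
    exact h1
  have hzj0 : z j ≠ 0 := by
    rw [hzj]
    exact one_ne_zero
  have hzgen : coords ℂ z = ⊤ := by
    have hz' : ∀ G : MvPolynomial (Fin (M + 1)) ℂ, algebraMap B E (Ideal.Quotient.mk q G) ∈
        coords ℂ z := by
      intro G
      rw [← hzval]
      have h2 : val z G ∈ Algebra.adjoin ℂ (Set.range z) := by
        rw [Algebra.adjoin_range_eq_range_aeval]
        exact ⟨G, rfl⟩
      have h3 : Algebra.adjoin ℂ (Set.range z) ≤ (coords ℂ z).toSubalgebra := by
        rw [Algebra.adjoin_le_iff]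
        rintro _ ⟨i, rfl⟩
        refine IntermediateField.subset_adjoin ℂ _ ⟨i, j, hzj0, ?_⟩
        rw [hzj, div_one]
      exact h3 h2
    rw [eq_top_iff]
    intro u _
    obtain ⟨a, b, hb, rfl⟩ := IsFractionRing.div_surjective (A := B) u
    obtain ⟨a', rfl⟩ := Ideal.Quotient.mk_surjective a
    obtain ⟨b', rfl⟩ := Ideal.Quotient.mk_surjective b
    exact (coords ℂ z).div_mem (hz' a') (hz' b')
  obtain ⟨w, hw⟩ := exists_trdeg_of_gen hzgen
  have hsub : SubOf ℂ x z := ⟨fun h => hzj0 (congrFun h j), hzgen, fun G hG hGx =>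
    (hz0 G).2 (hform G hG hGx)⟩
  have hon : ∀ (L : Type) [Field L] [Algebra ℂ L] (v : Fin (M + 1) → L), v j ≠ 0 →
      q ≤ chartIdeal j v → OnVar ℂ z v := by
    intro L _ _ v hj hle
    refine ⟨⟨j, hj⟩, fun G hG hGz => ?_⟩
    obtain ⟨d, hd⟩ := hG
    exact (mem_chart_hom hj hd).1 (hle ((hz0 G).1 hGz))
  rcases Nat.lt_or_ge w 2 with hw2 | hw2
  · -- dimension at most one
    have hBtr : Algebra.trdeg ℂ B ≤ w := by
      rw [← hw]
      exact trdeg_le_of_injective (IsScalarTower.toAlgHom ℂ B E) hBinj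
    have heq : ∀ (L : Type) [Field L] [Algebra ℂ L] (v : Fin (M + 1) → L), Nonconst v → v j ≠ 0 →
        q ≤ chartIdeal j v → q = chartIdeal j v := by
      intro L _ _ v hn hj hle
      by_contra hne
      obtain ⟨m, hm1, hm2⟩ := drop q (chartIdeal j v) (lt_of_le_of_ne hle hne) w hBtr
      have := chart_trdeg hj hn hm2
      omega
    have hvan : ∀ (L : Type) [Field L] [Algebra ℂ L] (v : Fin (M + 1) → L), Nonconst v →
        v j ≠ 0 → q ≤ chartIdeal j v → van v = van z := by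
      intro L _ _ v hn hj hle
      have h1 := heq L v hn hj hle
      ext G
      constructor
      · rintro ⟨hG, h⟩
        refine ⟨hG, (hz0 G).2 ?_⟩
        obtain ⟨d, hd⟩ := hG
        rw [h1, mem_chart_hom hj hd]
        exact h
      · rintro ⟨hG, h⟩
        exact ⟨hG, (hon L v hj hle).2 G hG h⟩
    constructor
    · refine Set.Finite.subset (Set.finite_singleton (van z)) ?_
      rintro V ⟨L, i1, i2, i3, v, hv, hgen, hc, rfl, hj, hle⟩
      exact hvan L v (nonconst_of_low hv hgen) hj hle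
    · by_cases hw1 : w = 1
      swap
      · refine ⟨0, fun L _ _ _ v hv hn hj hle => ?_⟩
        exfalso
        have h1 : Algebra.trdeg ℂ (MvPolynomial (Fin (M + 1)) ℂ ⧸ chartIdeal j v) ≤ w := by
          rw [← heq L v hn hj hle]
          exact hBtr
        have := chart_trdeg hj hn h1
        omega
      subst hw1
      have hff : IsFF ℂ E := ⟨Pool.Agent.Q72.NA.ess_of_adjoin hzgen, by rw [hw]; simp⟩
      rcases le_or_gt (canDeg ℂ E) 0 with hc | hc
      · refine ⟨0, fun L _ _ _ v hv hn hj hle => Or.inr ?_⟩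
        exact ⟨E, inferInstance, inferInstance, hff, z, ⟨⟨j, hzj0⟩, hsub.spec⟩, hzgen, hc,
          hvan L v hn hj hle⟩
      · refine ⟨(pht ℂ z).toNat, fun L _ _ _ v hv hn hj hle => Or.inl ?_⟩
        have hzg : IsGeneric z := ⟨⟨j, hzj0⟩, hzgen⟩
        have hzn : Nonconst z := nonconst_of_low (x := x) ⟨⟨j, hzj0⟩, hsub.spec⟩ hzgen
        obtain ⟨r, hr, hr1, hr2⟩ := curve_map hzg ⟨j, hj⟩
          (sameCurve_of_van (hvan L v hn hj hle).symm)
          ({1} : Set (MvPolynomial (Fin (M + 1)) ℂ)) (by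
            intro F hF
            rw [Set.mem_singleton_iff] at hF
            rw [hF]
            exact ⟨0, MvPolynomial.isHomogeneous_one _ _⟩) not_lies
        rw [eul_one ⟨j, hzj0⟩, eul_one ⟨j, hj⟩] at hr2
        have hzp := pht_pos z hzn
        rw [Int.toNat_of_nonneg hzp.le, hr1, mul_comm]
        have hr' : (0 : ℤ) < r := by exact_mod_cast hr
        exact mul_le_mul_of_nonneg_left (by nlinarith) hzp.le
  · -- dimension at least two
    obtain ⟨R, hR⟩ := hH E w z hsub hw2 hw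
    obtain ⟨d, hRd⟩ := hR.form
    have hRq : R ∉ q := fun h => hR.ne ((hz0 R).2 h)
    have h1 : q < q ⊔ Ideal.span {R} := by
      refine lt_of_le_of_ne le_sup_left fun h2 => hRq ?_
      rw [h2]
      exact Ideal.mem_sup_right (Ideal.mem_span_singleton_self R)
    obtain ⟨f1, A1, b1⟩ := ih _ h1
    obtain ⟨A2, b2⟩ := hR.degree
    have hdeg : ∀ (L : Type) [Field L] [Algebra ℂ L] [IsFF ℂ L] (v : Fin (M + 1) → L),
        Nonconst v → v j ≠ 0 → q ≤ chartIdeal j v → R ∉ chartIdeal j v →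
        0 < canDeg ℂ L ∧ pht ℂ v ≤ A2 * canDeg ℂ L := by
      intro L _ _ _ v hn hj hle hRv
      have h2 := b2 L v (hon L v hj hle) (fun h => hRv ((mem_chart_hom hj hRd).2 h))
      have h3 := pht_pos v hn
      rcases le_or_gt (canDeg ℂ L) 0 with h4 | h4
      · rw [max_eq_right h4, mul_zero] at h2
        omega
      · rw [max_eq_left h4.le] at h2
        exact ⟨h4, h2⟩
    have hle' : ∀ (L : Type) [Field L] [Algebra ℂ L] (v : Fin (M + 1) → L),
        q ≤ chartIdeal j v → R ∈ chartIdeal j v → q ⊔ Ideal.span {R} ≤ chartIdeal j v := by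
      intro L _ _ v hle hRv
      refine sup_le hle ?_
      rwa [Ideal.span_singleton_le_iff_mem]
    refine ⟨f1.subset ?_, A1 + A2, ?_⟩
    · rintro V ⟨L, i1, i2, i3, v, hv, hgen, hc, rfl, hj, hle⟩
      by_cases hRv : R ∈ chartIdeal j v
      · exact ⟨L, i1, i2, i3, v, hv, hgen, hc, rfl, hj, hle' L v hle hRv⟩
      · have := (hdeg L v (nonconst_of_low hv hgen) hj hle hRv).1
        omega
    · intro L _ _ _ v hv hn hj hle
      by_cases hRv : R ∈ chartIdeal j v
      · exact (b1 L v hv hn hj (hle' L v hle hRv)).imp (bdd_mono hn (Nat.le_add_right _ _)) id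
      · exact Or.inl (bdd_mono hn (Nat.le_add_left _ _) (hdeg L v hn hj hle hRv).2)

/-- **Curves and subvarieties.** -/
theorem alg' (hH : Hered x) : (lowCurves x).Finite ∧
    (∃ A : ℕ, ∀ (L : Type) [Field L] [Algebra ℂ L] [IsFF ℂ L] (v : Fin (M + 1) → L),
      OnVar ℂ x v → Nonconst v → pht ℂ v ≤ A * canDeg ℂ L ∨ van v ∈ lowCurves x) ∧
    ∀ (E : Type) [Field E] [Algebra ℂ E] (w : ℕ) (z : Fin (M + 1) → E), SubOf ℂ x z → 1 ≤ w →
      Algebra.trdeg ℂ E = w → GeneralType ℂ E w ∨ van z ∈ lowCurves x := by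
  classical
  choose h1 h2 using fun j => noe hH j (⊥ : Ideal (MvPolynomial (Fin (M + 1)) ℂ))
  choose A hA using h2
  refine ⟨(Set.finite_iUnion h1).subset ?_, ⟨∑ j, A j, ?_⟩, ?_⟩
  · rintro V ⟨L, i1, i2, i3, v, hv, hgen, hc, rfl⟩
    obtain ⟨j, hj⟩ := hv.1
    exact Set.mem_iUnion.2 ⟨j, L, i1, i2, i3, v, hv, hgen, hc, rfl, hj, bot_le⟩
  · intro L _ _ _ v hv hn
    obtain ⟨j, hj⟩ := hv.1
    exact (hA j L v hv hn hj bot_le).imp (bdd_mono hn
      (Finset.single_le_sum (f := A) (fun _ _ => Nat.zero_le _) (Finset.mem_univ j))) id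
  · intro E _ _ w z hz hw ht
    rcases (by omega : w = 1 ∨ 2 ≤ w) with rfl | hw2
    · have hz0 : ∃ j, z j ≠ 0 := by
        obtain ⟨i, hi⟩ := Function.ne_iff.1 hz.ne
        exact ⟨i, hi⟩
      have hff : IsFF ℂ E := ⟨Pool.Agent.Q72.NA.ess_of_adjoin hz.gen, by rw [ht]; simp⟩
      rcases le_or_gt (canDeg ℂ E) 0 with h3 | h3
      · right
        exact ⟨E, inferInstance, inferInstance, hff, z, ⟨hz0, hz.spec⟩, hz.gen, h3, rfl⟩
      · left
        exact gt_of_canDeg h3
    · left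
      obtain ⟨R, hR⟩ := hH E w z hz hw2 ht
      exact hR.sub E w z ⟨hz.ne, hz.gen, fun G _ h => h⟩ hR.ne hw ht

end Pool.Agent.P8H50.SS.SF
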