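import Pool.Agent.P8H50.SS.Disc

/-!
Special sets over grids (helper50): entire curves and meromorphic images of affine spaces (after
`Q103/SF/Ent.lean`).
-/

set_option autoImplicit false
set_option maxHeartbeats 400000
set_option linter.overlappingInstances false
set_option linter.unusedSectionVars false

namespace Pool.Agent.P8H50.SS.SF

open Pool.Agent.Q103.SF

open FF Filter
open Pool.Agent.W602.GT Metric Topology
open Pool.Agent.Y221.PD
open Pool.Agent.Y221.BD (EntireCurve)
open Pool.Agent.W603.BP (Extends sin_curve sin_point)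
open Pool.Agent.P8H50.SS (HypMod)

variable {M : ℕ} {K : Type} [Field K] [Algebra ℂ K] {x : Fin (M + 1) → K}

/-- entire curves give punctured discs with an essential singularity -/
theorem disc_of_entire {f : Fin (M + 1) → ℂ → ℂ} (hf : EntireCurve x f) :
    EssentialDisc x (fun w i => f i (Complex.sin w⁻¹)) := by
  obtain ⟨f', hf'⟩ : ∃ f' : ℂ → Fin (M + 1) → ℂ, ∀ t i, f' t i = f i t := ⟨fun t i => f i t,
    fun _ _ => rfl⟩
  have hfe : ∀ t, f' t = fun i => f i t := fun t => funext (hf' t)
  have hne : ∀ t, f' t ≠ 0 := by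
    intro t h0
    obtain ⟨i, hi⟩ := hf.ne t
    apply hi
    rw [← hf', h0]
    rfl
  have hE : Pool.Agent.H159R3.GGLLog.EntireCurve (ι := Empty) ∅ (fun e => e.elim) f' := by
    refine ⟨?_, fun z => ⟨hne z, fun j hj => absurd hj (Set.notMem_empty j), fun e => e.elim⟩, ?_⟩
    · rw [differentiable_pi]
      intro i
      have : (fun t => f' t i) = f i := funext fun t => hf' t i
      rw [this]
      exact hf.hol i
    · obtain ⟨i, j, a, b, hab⟩ := hf.nonconst
      refine ⟨a, b, fun c hc => hab ?_⟩
      have h1 : ∀ l, f l a = c * f l b := by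
        intro l
        have := congrFun hc l
        rw [hf', Pi.smul_apply, hf', smul_eq_mul] at this
        exact this
      rw [h1 i, h1 j]
      ring
  obtain ⟨⟨h1, h2⟩, h3⟩ := sin_curve hE
  have hD : EssentialDisc x (fun w => f' (Complex.sin w⁻¹)) := by
    refine ⟨fun i => ?_, fun t _ => hne _, fun G hG hxG t _ => ?_, h3⟩
    · exact fun t ht => (differentiableWithinAt_pi.mp (h1 t ht)) i
    · show MvPolynomial.eval (f' (Complex.sin t⁻¹)) G = 0
      rw [hfe]
      exact hf.mem G hG hxG _
  have h4 : (fun w => f' (Complex.sin w⁻¹)) = fun w i => f i (Complex.sin w⁻¹) := by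
    funext w i
    exact hf' _ _
  rwa [h4] at hD

/-- **Entire curves.** -/
theorem entire_low (hG1 : S_gpc) (hH : Hered x) {f : Fin (M + 1) → ℂ → ℂ}
    (hf : EntireCurve x f) : vanOn Set.univ (fun t i => f i t) ∈ lowCurves x := by
  have h1 := disc_low' hG1 hH (disc_of_entire hf)
  have h2 : vanOn (ball (0 : ℂ) 1 \ {0}) (fun w i => f i (Complex.sin w⁻¹)) =
      vanOn Set.univ (fun t i => f i t) := by
    ext G
    constructor
    · rintro ⟨hG, h⟩
      refine ⟨hG, fun t _ => ?_⟩
      obtain ⟨w, hw, hws⟩ := sin_point t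
      have h3 := h w hw
      simp only [hws] at h3
      exact h3
    · rintro ⟨hG, h⟩
      exact ⟨hG, fun t _ => h _ (Set.mem_univ _)⟩
  rwa [h2] at h1

/-- values of polynomials of differentiable functions -/
theorem diff_eval {n : ℕ} {h : Fin (M + 1) → (Fin n → ℂ) → ℂ} (hh : ∀ i, Differentiable ℂ (h i))
    (G : MvPolynomial (Fin (M + 1)) ℂ) :
    Differentiable ℂ fun t => MvPolynomial.eval (fun i => h i t) G := by
  induction G using MvPolynomial.induction_on with
  | C a =>
    simp only [MvPolynomial.eval_C]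
    exact differentiable_const _
  | add p q hp hq =>
    simp only [map_add]
    exact hp.add hq
  | mul_X p i hp =>
    simp only [map_mul, MvPolynomial.eval_X]
    exact hp.mul (hh i)

/-- finitely many functions on `ℂ ^ g` which are not zero -/
theorem exists_common {g : ℕ} {ι : Type} (s : Finset ι) (F : ι → (Fin g → ℂ) → ℂ)
    (hF : ∀ i, Differentiable ℂ (F i)) (hne : ∀ i ∈ s, ∃ p, F i p ≠ 0) :
    ∃ p, ∀ i ∈ s, F i p ≠ 0 := by
  classical
  induction s using Finset.induction_on with
  | empty => exact ⟨0, fun i hi => absurd hi (Finset.notMem_empty i)⟩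
  | insert a s ha ih =>
    obtain ⟨p, hp⟩ := ih fun i hi => hne i (Finset.mem_insert_of_mem hi)
    obtain ⟨q, hq⟩ := hne a (Finset.mem_insert_self a s)
    let ℓ : ℂ → Fin g → ℂ := fun s => p + s • (q - p)
    have hℓ : Differentiable ℂ ℓ := by
      simp only [ℓ]
      fun_prop
    have h0 : ℓ 0 = p := by simp [ℓ]
    have h1 : ℓ 1 = q := by simp [ℓ]
    have han : ∀ i, AnalyticOnNhd ℂ (fun t => F i (ℓ t)) Set.univ := fun i =>
      ((hF i).comp hℓ).differentiableOn.analyticOnNhd isOpen_univ
    -- each function is nonzero at almost all points of the line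
    have hev : ∀ i ∈ insert a s, ∀ᶠ t in 𝓝[≠] (0 : ℂ), F i (ℓ t) ≠ 0 := by
      intro i hi
      rcases (han i 0 (Set.mem_univ _)).eventually_eq_zero_or_eventually_ne_zero with h2 | h2
      · exfalso
        have h3 : ∀ t, F i (ℓ t) = 0 := by
          have := (han i).eq_of_eventuallyEq (f := fun t => F i (ℓ t)) (g := fun _ => 0)
            analyticOnNhd_const h2
          exact fun t => congrFun this t
        rcases Finset.mem_insert.1 hi with rfl | hi
        · apply hq
          rw [← h1]
          exact h3 1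
        · apply hp i hi
          rw [← h0]
          exact h3 0
      · exact h2
    have hall : ∀ᶠ t in 𝓝[≠] (0 : ℂ), ∀ i ∈ insert a s, F i (ℓ t) ≠ 0 :=
      (Filter.eventually_all_finset _).2 hev
    obtain ⟨t, ht⟩ := hall.exists
    exact ⟨ℓ t, ht⟩

/-- **Meromorphic images of affine spaces.** -/
theorem mero_low (hG1 : S_gpc) (hH : Hered x)
    (hfin : (lowCurves x).Finite) {g : ℕ} {u : Fin (M + 1) → (Fin g → ℂ) → ℂ}
    (hu : MeroMap x g u) : vanOn Set.univ (fun t i => u i t) ∈ lowCurves x := by
  classical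
  by_contra hcon
  obtain ⟨i, j, a, b, hab⟩ := hu.nonconst
  obtain ⟨k0, hk0⟩ : ∃ k, u k a ≠ 0 := by
    by_contra hcon
    push Not at hcon
    apply hab
    simp only [hcon, zero_mul]
  -- forms which vanish on the curves but not on the image
  have hsep : ∀ V ∈ lowCurves x, vanOn Set.univ (fun t i => u i t) ⊆ V →
      ∃ G ∈ V, IsForm G ∧ ∃ p, MvPolynomial.eval (fun i => u i p) G ≠ 0 := by
    intro V hV hle
    by_contra hno
    push Not at hno
    apply hcon
    have h1 : vanOn Set.univ (fun t i => u i t) = V := by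
      refine Set.Subset.antisymm hle fun G hG => ?_
      have hGf : IsForm G := by
        obtain ⟨L, _, _, _, v, -, -, -, rfl⟩ := hV
        exact hG.1
      exact ⟨hGf, fun t _ => hno G hG hGf t⟩
    rwa [h1]
  choose! G hGV hGf hGp using hsep
  -- a point where none of these forms vanishes
  let S := hfin.toFinset.filter fun V => vanOn Set.univ (fun t i => u i t) ⊆ V
  obtain ⟨p, hp⟩ := exists_common (insert none (S.image some))
    (fun o => match o with
      | none => u k0
      | some V => fun t => MvPolynomial.eval (fun i => u i t) (G V)) (by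
      rintro (_ | V)
      · exact hu.hol k0
      · exact diff_eval hu.hol (G V)) (by
      intro o ho
      rcases Finset.mem_insert.1 ho with rfl | ho
      · exact ⟨a, hk0⟩
      · obtain ⟨V, hV, rfl⟩ := Finset.mem_image.1 ho
        obtain ⟨h1, h2⟩ := Finset.mem_filter.1 hV
        exact hGp V (hfin.mem_toFinset.1 h1) h2)
  have hpk : u k0 p ≠ 0 := hp none (Finset.mem_insert_self _ _)
  -- a second point
  obtain ⟨q, i', j', hq⟩ : ∃ q i' j', u i' p * u j' q ≠ u j' p * u i' q := by
    by_contra hcon2
    push Not at hcon2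
    apply hab
    have h1 : ∀ l c, u l c = u k0 c * u l p / u k0 p := by
      intro l c
      have := hcon2 c l k0
      field_simp
      linear_combination -this
    rw [h1 i a, h1 j b, h1 j a, h1 i b]
    ring
  let ℓ : ℂ → Fin g → ℂ := fun s => p + s • (q - p)
  have hℓ : Differentiable ℂ ℓ := by
    simp only [ℓ]
    fun_prop
  have h0 : ℓ 0 = p := by simp [ℓ]
  have h1 : ℓ 1 = q := by simp [ℓ]
  obtain ⟨f, hf, hfu⟩ := curve_of_entire (x := x) (u := fun i s => u i (ℓ s))
    (fun i => (hu.hol i).comp hℓ) (fun G hG hxG s => hu.mem G hG hxG (ℓ s)) (i := i') (j := j')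
    (a := 0) (b := 1) (by
      simp only [h0, h1]
      exact hq)
  have hV := entire_low hG1 hH hf
  set V := vanOn Set.univ (fun t i => f i t) with hVdef
  have hle : vanOn Set.univ (fun t i => u i t) ⊆ V := by
    rintro H ⟨hH, hH0⟩
    refine ⟨hH, fun t _ => ?_⟩
    obtain ⟨e, he⟩ := hH
    by_cases hne : ∃ k, u k (ℓ t) ≠ 0
    · obtain ⟨c, hc, hcf⟩ := hfu t hne
      have h2 := eval_scale he c hcf
      rw [hH0 (ℓ t) (Set.mem_univ _)] at h2
      exact (mul_eq_zero.1 h2.symm).resolve_left (pow_ne_zero _ hc)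
    · -- continuity
      have hcont : Continuous fun t => MvPolynomial.eval (fun i => f i t) H :=
        (MvPolynomial.continuous_eval H).comp (continuous_pi fun i => (hf.hol i).continuous)
      have hcl : AnalyticOnNhd ℂ (fun t => u k0 (ℓ t)) Set.univ :=
        ((hu.hol k0).comp hℓ).differentiableOn.analyticOnNhd isOpen_univ
      have hev : ∀ᶠ s in 𝓝[≠] t, u k0 (ℓ s) ≠ 0 := by
        rcases (hcl t (Set.mem_univ _)).eventually_eq_zero_or_eventually_ne_zero with h2 | h2
        · exfalso
          have := hcl.eq_of_eventuallyEq (f := fun t => u k0 (ℓ t)) (g := fun _ => 0)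
            analyticOnNhd_const h2
          apply hpk
          rw [← h0]
          exact congrFun this 0
        · exact h2
      have hev2 : ∀ᶠ s in 𝓝[≠] t, MvPolynomial.eval (fun i => f i s) H = 0 := by
        filter_upwards [hev] with s hs
        obtain ⟨c, hc, hcf⟩ := hfu s ⟨k0, hs⟩
        have h2 := eval_scale he c hcf
        rw [hH0 (ℓ s) (Set.mem_univ _)] at h2
        exact (mul_eq_zero.1 h2.symm).resolve_left (pow_ne_zero _ hc)
      have h3 : Tendsto (fun s => MvPolynomial.eval (fun i => f i s) H) (𝓝[≠] t)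
          (𝓝 (MvPolynomial.eval (fun i => f i t) H)) := hcont.continuousAt.mono_left
        nhdsWithin_le_nhds
      have h4 : Tendsto (fun s => MvPolynomial.eval (fun i => f i s) H) (𝓝[≠] t) (𝓝 0) :=
        tendsto_const_nhds.congr' (by
          filter_upwards [hev2] with s hs
          exact hs.symm)
      exact tendsto_nhds_unique h3 h4
  have hGV' := hGV V hV hle
  have hz : MvPolynomial.eval (fun i => f i 0) (G V) = 0 := hGV'.2 0 (Set.mem_univ _)
  obtain ⟨c, hc, hcf⟩ := hfu 0 ⟨k0, by simp only [h0]; exact hpk⟩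
  obtain ⟨e, he⟩ := hGf V hV hle
  have h2 := eval_scale he c hcf
  simp only [h0] at h2
  rw [hz, mul_zero] at h2
  exact hp (some V) (Finset.mem_insert_of_mem (Finset.mem_image_of_mem _
    (Finset.mem_filter.2 ⟨hfin.mem_toFinset.2 hV, hle⟩))) h2

end Pool.Agent.P8H50.SS.SF
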