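import Pool.Agent.P8H50.SS.Cmb
import Pool.Agent.P8H50.SG.Deg
import Pool.Agent.P8H50.SG.Alg

/-!
Special sets over grids (helper50): general type and the degrees of curves for systems of covers.
-/

set_option autoImplicit false

open FF Pool.Agent.W603.LV Pool.Agent.W602.GT

namespace Pool.Agent.P8H50.SS

open Pool.Agent.P8H50.SG (lf nu weights bases alg_le gt' deg_bound hgt_const)

namespace Cmb

variable {k : Type} [Field k] {n r : ℕ} {C : Cmb k n r} {K : Type} [Field K] [Algebra k K]
  {x : Fin n → K} {z : Fin r → K}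

theorem weights' (C : Cmb k n r) : ∃ (M : ℕ) (c : Fin n → ℕ), ∑ j, c j ≤ M ∧
    ∀ j, (M : ℤ) * (∑ i, C.f i j : ℕ) + 1 ≤ c j * ((C.q j : ℤ) - 2) :=
  weights C.q (fun j => ∑ i, C.f i j) C.hq C.hs

open scoped Classical in
/-- **General type.** -/
theorem general [IsAlgClosed k] [CharZero k] (h : C.Pt x z)
    (halg : Algebra.IsAlgebraic (IntermediateField.adjoin k (Set.range x)) K) {d : ℕ} (hd : 1 ≤ d)
    (htr : Algebra.trdeg k K = d) : GeneralType k K d := by
  classical
  obtain ⟨M, c, hM, hc⟩ := C.weights'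
  choose κ hκ hz using h.split
  set J := {j // Transcendental k (x j)} with hJ
  have hL : ∀ (j : J) l, lf 1 (-(C.a j.1 l)) (x j.1) ≠ 0 := fun j l => h.ne j.1 l
  have halg' : Algebra.IsAlgebraic (IntermediateField.adjoin k (Set.range fun j : J => x j.1)) K := by
    refine alg_le (L := IntermediateField.adjoin k (Set.range x)) ?_ halg
    rw [IntermediateField.adjoin_le_iff]
    rintro _ ⟨j, rfl⟩
    by_cases h : Transcendental k (x j)
    · exact IntermediateField.subset_adjoin k _ ⟨⟨j, h⟩, rfl⟩
    · have h1 : IsAlgebraic k (x j) := by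
        by_contra h2
        exact h h2
      obtain ⟨c, hc⟩ := const_of_algebraic h1
      rw [hc]
      exact (IntermediateField.adjoin k _).algebraMap_mem c
  have hne : Nonempty J := by
    by_contra h
    rw [not_nonempty_iff] at h
    have h2 := alg_adjoin halg'
    obtain ⟨t, ht, hb⟩ := exists_isTranscendenceBasis_subset (R := k) (A := K)
      (Set.range fun j : J => x j.1)
    have h3 : t = ∅ := by
      rw [Set.range_eq_empty] at ht
      exact Set.subset_empty_iff.1 ht
    subst h3
    have h4 := hb.cardinalMk_eq_trdeg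
    rw [htr, Cardinal.mk_emptyCollection] at h4
    have h5 : (0 : ℕ) = d := by exact_mod_cast h4
    omega
  obtain ⟨j0⟩ := hne
  choose S hS hb using fun j : J => bases (fun j : J => x j.1) (fun j => j.2) htr halg' j
  have hord := fun P : Place k K => ord_all (a := fun j : J => C.a j.1) (u := fun j : J => x j.1)
    (e := fun i (j : J) => C.e i j.1) (m := C.m) (fun j => C.he j.1) C.hm
    (f := fun i (j : J) => C.f i j.1) (fun i j => C.hf i j.1) hL (fun i => (h i).1) hκ hz P
  have hMJ : ∑ j : J, c j.1 ≤ M := by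
    refine le_trans ?_ hM
    rw [← Fintype.sum_subtype_add_sum_subtype (fun j => Transcendental k (x j)) c]
    exact Nat.le_add_right _ _
  exact gt' (q := fun j : J => C.q j.1) (a := fun j _ => 1) (b := fun j l => -(C.a j.1 l))
    (u := fun j => x j.1) (f := fun j => ∑ i, C.f i j.1) (c := fun j => c j.1) (M := M) (μ := 1)
    (fun j => by have := C.hq j.1; omega) (fun j => indep (C.ha j.1)) (fun j h => j.2 (by
      rw [h]; exact isAlgebraic_zero)) hL (Finset.prod_ne_zero_iff.2 fun i _ => (h i).1)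
    (fun P _ => (hord P).1) (fun P _ => (hord P).2) (by rw [mul_one]; exact_mod_cast hMJ)
    (fun j => hc j.1) S hS j0 hb htr

open scoped Classical in
/-- **Degrees of curves.** -/
theorem bound [IsAlgClosed k] [CharZero k] (C : Cmb k n r) : ∃ A : ℕ, ∀ (K : Type) [Field K]
    [Algebra k K] [IsFF k K] (x : Fin n → K) (z : Fin r → K), C.Pt x z →
    ∀ j, hgt k (x j) ≤ A * max (canDeg k K) 0 := by
  classical
  obtain ⟨M, c, hM, hc⟩ := C.weights'
  refine ⟨M, fun K _ _ _ x z h j => ?_⟩
  by_cases hj : Transcendental k (x j)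
  swap
  · have h1 : IsAlgebraic k (x j) := by
      by_contra h
      exact hj h
    obtain ⟨c, hc⟩ := const_of_algebraic h1
    rw [hc, hgt_const]
    exact mul_nonneg (Int.natCast_nonneg _) (le_max_right _ _)
  choose κ hκ hz using h.split
  set J := {j // Transcendental k (x j)} with hJ
  have hL : ∀ (j : J) l, lf 1 (-(C.a j.1 l)) (x j.1) ≠ 0 := fun j l => h.ne j.1 l
  have hord := fun P : Place k K => ord_all (a := fun j : J => C.a j.1) (u := fun j : J => x j.1)
    (e := fun i (j : J) => C.e i j.1) (m := C.m) (fun j => C.he j.1) C.hm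
    (f := fun i (j : J) => C.f i j.1) (fun i j => C.hf i j.1) hL (fun i => (h i).1) hκ hz P
  have hMJ : ∑ j : J, c j.1 ≤ M := by
    refine le_trans ?_ hM
    rw [← Fintype.sum_subtype_add_sum_subtype (fun j => Transcendental k (x j)) c]
    exact Nat.le_add_right _ _
  have h1 := deg_bound (q := fun j : J => C.q j.1) (a := fun j _ => 1)
    (b := fun j l => -(C.a j.1 l)) (u := fun j => x j.1) (f := fun j => ∑ i, C.f i j.1)
    (c := fun j => c j.1) (M := M) (μ := 1) (fun j => by have := C.hq j.1; omega)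
    (fun j => indep (C.ha j.1)) (fun j => j.2) hL (z := ∏ i, z i)
    (Finset.prod_ne_zero_iff.2 fun i _ => (h i).1)
    (fun P => (hord P).1) (fun P => (hord P).2) (by rw [mul_one]; exact_mod_cast hMJ)
    (fun j => hc j.1)
  have h2 : hgt k (x j) ≤ ∑ j : J, hgt k (x j.1) :=
    Finset.single_le_sum (f := fun j : J => hgt k (x j.1)) (fun j _ => hgt_nonneg _)
      (Finset.mem_univ (⟨j, hj⟩ : J))
  have h4 : (∑ j : J, (c j.1 : ℤ)) ≤ M := by exact_mod_cast hMJ
  have h5 : (0 : ℤ) ≤ ∑ j : J, (c j.1 : ℤ) := Finset.sum_nonneg fun j _ => Int.natCast_nonneg _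
  calc hgt k (x j) ≤ (∑ j : J, (c j.1 : ℤ)) * canDeg k K := h2.trans h1
    _ ≤ (∑ j : J, (c j.1 : ℤ)) * max (canDeg k K) 0 :=
        mul_le_mul_of_nonneg_left (le_max_left _ _) h5
    _ ≤ M * max (canDeg k K) 0 := mul_le_mul_of_nonneg_right h4 (le_max_right _ _)

end Cmb

end Pool.Agent.P8H50.SS
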