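import Pool.Agent.P8H50.SS.Pic
import Pool.Agent.P8H50.SS.HDefs

/-!
Special sets over grids (helper50): the closed subset of a variety of the class.
-/

set_option autoImplicit false

open FF Pool.Agent.W602.GT

namespace Pool.Agent.P8H50.SS

/-- **Varieties of the class are hyperbolic modulo a proper closed subset.** -/
theorem IsGridCover.hypMod {K : Type} [Field K] [Algebra ℂ K] (h : IsGridCover ℂ K) {M : ℕ}
    {v : Fin (M + 1) → K} (hv : v ≠ 0) (hgen : coords ℂ v = ⊤) : ∃ R, HypMod v R := by
  obtain ⟨n, r, C, x, z, hC, halg⟩ := h.exists_cmb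
  exact hypMod_of (Cmb.strong hC halg hv hgen) (Cmb.picard hC halg hv hgen)
    (Cmb.curveBound hC halg hv hgen)

end Pool.Agent.P8H50.SS
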