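import Pool.Agent.P8H50.SS.Gen
import Pool.Agent.Q184.EC.AnaStm
import Pool.Agent.Q149.EC.Val
import Pool.Agent.Q224.EC.Plc
import Pool.Agent.Y221.AP.Ct

/-!
Special sets over grids (helper50): the coordinates of a punctured disc are meromorphic at infinity.
-/

set_option autoImplicit false

open FF Pool.Agent.W603.LV Pool.Agent.W602.GT

namespace Pool.Agent.P8H50.SS

open Pool.Agent.P8H50.SG
open Pool.Agent.Y221.AP (MK MDer Om MInf MI)
open Cmb (ord_all)

/-- integrality over a subfield -/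
theorem int_up {k K : Type} [Field k] [Field K] [Algebra k K] (L : IntermediateField k K)
    (B : Set L) (C : Set K) (hBC : ∀ b ∈ B, (b : K) ∈ C) {a : L}
    (h : IsIntegral (Algebra.adjoin k B) a) : IsIntegral (Algebra.adjoin k C) (a : K) := by
  have hmem : ∀ s ∈ Algebra.adjoin k B, (s : K) ∈ Algebra.adjoin k C := by
    intro s hs
    have h1 : L.val s ∈ (Algebra.adjoin k B).map L.val := Subalgebra.mem_map.2 ⟨s, hs, rfl⟩
    rw [AlgHom.map_adjoin] at h1
    refine Algebra.adjoin_mono ?_ h1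
    rintro _ ⟨t, ht, rfl⟩
    exact hBC t ht
  let j : L →+* K := algebraMap L K
  let ψ : Algebra.adjoin k B →+* Algebra.adjoin k C :=
    (j.comp (algebraMap (Algebra.adjoin k B) L)).codRestrict (Algebra.adjoin k C)
      fun s => hmem s s.2
  exact h.map_of_comp_eq ψ j (RingHom.ext fun s => rfl)

/-- the analytic criterion for a family with any index set -/
theorem ana {ι : Type} [Fintype ι] (u : ι → MK) (hu : ∀ i, u i ≠ 0) (F : MK) (hF : F ≠ 0)
    (h0 : ∀ z ∈ Om, Pool.Agent.Y221.AP.Reg F z)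
    (h1 : ∀ i, ∀ z ∈ Om, Pool.Agent.Y221.AP.Reg (F * u i) z)
    (h2 : IsIntegral (Algebra.adjoin ℂ (Set.range fun j => MDer (u j) / u j)) F)
    (h3 : ∀ i, IsIntegral (Algebra.adjoin ℂ (Set.range fun j => MDer (u j) / u j)) (F * u i))
    (i : ι) : MInf (u i) := by
  classical
  set e := Fintype.equivFin ι with he
  set u' : Fin (Fintype.card ι + 1) → MK := Fin.cons 1 fun s => u (e.symm s) with hu'
  have hsub : Algebra.adjoin ℂ (Set.range fun j => MDer (u j) / u j) ≤
      Algebra.adjoin ℂ (Set.range fun j => MDer (u' j) / u' j) := by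
    refine Algebra.adjoin_mono ?_
    rintro _ ⟨j, rfl⟩
    refine ⟨(e j).succ, ?_⟩
    simp only [hu', Fin.cons_succ, Equiv.symm_apply_apply]
  have hup : ∀ a : MK, IsIntegral (Algebra.adjoin ℂ (Set.range fun j => MDer (u j) / u j)) a →
      IsIntegral (Algebra.adjoin ℂ (Set.range fun j => MDer (u' j) / u' j)) a := by
    intro a ha
    exact ha.map_of_comp_eq (Subalgebra.inclusion hsub).toRingHom (RingHom.id MK)
      (RingHom.ext fun s => rfl)
  have h := Pool.Agent.Q184.EC.t_ana (Fintype.card ι) u' rfl (by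
    refine Fin.cases ?_ fun s => ?_
    · simp [hu']
    · simp only [hu', Fin.cons_succ]
      exact hu _) F hF (by
    refine Fin.cases ?_ fun s => ?_
    · simp only [hu', Fin.cons_zero, mul_one]
      exact h0
    · simp only [hu', Fin.cons_succ]
      exact h1 _) (by
    refine Fin.cases ?_ fun s => ?_
    · simp only [hu', Fin.cons_zero, mul_one]
      exact hup _ h2
    · simp only [hu', Fin.cons_succ]
      exact hup _ (h3 _)) (e i).succ
  simpa only [hu', Fin.cons_succ, Equiv.symm_apply_apply] using h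

/-- the estimate at a place with regular logarithmic derivatives -/
theorem reg_val {k L : Type} [Field k] [Field L] [Algebra k L] {ι : Type} [Fintype ι]
    {q : ι → ℕ} {a : ∀ j, Fin (q j) → k} (ha : ∀ j, Function.Injective (a j)) {u y : ι → L}
    (hu : ∀ j, u j ≠ 0) (hL : ∀ j l, lf 1 (-(a j l)) (u j) ≠ 0) {f : ι → ℕ} {z : L} {c : ι → ℕ}
    {M : ℕ} (hc : ∀ j, (M : ℤ) * f j + 1 ≤ c j * ((q j : ℤ) - 2)) (P : Place k L)
    (hz1 : 0 ≤ P.ord z + ∑ j, (f j : ℤ) * nu P (u j))
    (h1 : ∀ j, P.Reg (y j / u j)) (h2 : ∀ j l, P.Reg (y j / lf 1 (-(a j l)) (u j))) {g : L}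
    (hg : Ge P (-(∑ j, nu P (u j))) g) :
    Ge P 0 (g * z ^ M * ∏ j, (y j / ∏ l, lf 1 (-(a j l)) (u j)) ^ c j) := by
  classical
  have hpz : Ge P (M * P.ord z) (z ^ M) := Or.inr (by rw [P.ord_pow])
  have hprod : Ge P (∑ j, (c j : ℤ) * (((q j : ℤ) - 2) * nu P (u j)))
      (∏ j, (y j / ∏ l, lf 1 (-(a j l)) (u j)) ^ c j) :=
    Ge.prod _ _ _ fun j _ => (col_val (a j) (ha j) P (u j) (y j) (hL j) (h1 j) (h2 j) (hu j)).pow
      (c j)
  refine ((hg.mul hpz).mul hprod).mono ?_
  have h3 : ∑ j, ((M : ℤ) * f j + 1) * nu P (u j) ≤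
      ∑ j, (c j : ℤ) * (((q j : ℤ) - 2) * nu P (u j)) :=
    Finset.sum_le_sum fun j _ => by
      rw [← mul_assoc]
      exact mul_le_mul_of_nonneg_right (hc j) (nu_nonneg P (u j))
  have h4 : ∑ j, ((M : ℤ) * f j + 1) * nu P (u j) =
      M * ∑ j, (f j : ℤ) * nu P (u j) + ∑ j, nu P (u j) := by
    rw [Finset.mul_sum, ← Finset.sum_add_distrib]
    exact Finset.sum_congr rfl fun j _ => by ring
  have h5 : (0 : ℤ) ≤ M * (P.ord z + ∑ j, (f j : ℤ) * nu P (u j)) :=
    mul_nonneg (Int.natCast_nonneg _) hz1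
  rw [h4] at h3
  have h6 : (M : ℤ) * (P.ord z + ∑ j, (f j : ℤ) * nu P (u j)) =
      M * P.ord z + M * ∑ j, (f j : ℤ) * nu P (u j) := by ring
  rw [h6] at h5
  linarith

open scoped Classical in
/-- **The coordinates of a punctured disc are meromorphic at infinity.** -/
theorem Cmb.Pt.minf {n r : ℕ} {C : Cmb ℂ n r} {x : Fin n → MK} {z : Fin r → MK} (h : C.Pt x z)
    (j : Fin n) : MInf (x j) := by
  classical
  obtain ⟨M, c, hM, hc⟩ := C.weights'
  choose κ hκ hz using h.split
  by_cases hj : Transcendental ℂ (x j)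
  swap
  · have h1 : IsAlgebraic ℂ (x j) := by
      by_contra h
      exact hj h
    obtain ⟨c, hc⟩ := const_of_algebraic h1
    rw [hc]
    exact Pool.Agent.Y221.AP.minf_const c
  set J := {j // Transcendental ℂ (x j)} with hJ
  have hL : ∀ (j : J) l, lf 1 (-(C.a j.1 l)) (x j.1) ≠ 0 := fun j l => h.ne j.1 l
  have hu : ∀ j : J, x j.1 ≠ 0 := fun j h => j.2 (by rw [h]; exact isAlgebraic_zero)
  have hLd : ∀ j : J, MDer (x j.1) ≠ 0 := by
    intro j h
    obtain ⟨c, hc⟩ := Pool.Agent.Y221.AP.MD_zero (x := x j.1) h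
    apply j.2
    rw [hc]
    exact isAlgebraic_algebraMap c
  have hR : ∀ j : J, (∏ l, lf 1 (-(C.a j.1 l)) (x j.1)) ≠ 0 := fun j =>
    Finset.prod_ne_zero_iff.2 fun l _ => hL j l
  have hM' : ∑ j : J, c j.1 ≤ M := by
    refine le_trans ?_ hM
    rw [← Fintype.sum_subtype_add_sum_subtype (fun j => Transcendental ℂ (x j)) c]
    exact Nat.le_add_right _ _
  have hz0 : (∏ i, z i) ≠ 0 := Finset.prod_ne_zero_iff.2 fun i _ => (h i).1
  -- the family
  let g : J ⊕ ((j : J) × Fin (C.q j.1)) → MK :=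
    Sum.elim (fun j => x j.1) fun s => lf 1 (-(C.a s.1.1 s.2)) (x s.1.1)
  set F : MK := (∏ i, z i) ^ M *
    ∏ j : J, (MDer (x j.1) / ∏ l, lf 1 (-(C.a j.1 l)) (x j.1)) ^ c j.1 with hF
  have hF0 : F ≠ 0 := mul_ne_zero (pow_ne_zero _ hz0) (Finset.prod_ne_zero_iff.2 fun j _ =>
    pow_ne_zero _ (div_ne_zero (hLd j) (hR j)))
  have hg0 : ∀ i, g i ≠ 0 := by
    rintro (j | s)
    · exact hu j
    · exact hL s.1 s.2
  have hge : ∀ (L : Type) [Field L] [Algebra ℂ L] (P : Place ℂ L) (u : J → L) (j : J),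
      -(∑ j, nu P (u j)) ≤ -(nu P (u j)) := by
    intro L _ _ P u j
    have := Finset.single_le_sum (f := fun j => nu P (u j)) (fun j _ => nu_nonneg P (u j))
      (Finset.mem_univ j)
    simpa using this
  have hge1 : ∀ (L : Type) [Field L] [Algebra ℂ L] (P : Place ℂ L) (u : J → L),
      -(∑ j, nu P (u j)) ≤ 0 := by
    intro L _ _ P u
    have := Finset.sum_nonneg fun j (_ : j ∈ Finset.univ) => nu_nonneg P (u j)
    omega
  have hgg : ∀ (L : Type) [Field L] [Algebra ℂ L] (P : Place ℂ L) (u : J → L)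
      (i : J ⊕ ((j : J) × Fin (C.q j.1))), Ge P (-(∑ j, nu P (u j)))
        (Sum.elim (fun j => u j) (fun s => lf 1 (-(C.a s.1.1 s.2)) (u s.1)) i) := by
    intro L _ _ P u i
    rcases i with j | s
    · exact (ge_u P (u j)).mono (hge L P u j)
    · exact (ge_lf P 1 (-(C.a s.1.1 s.2)) (u s.1)).mono (hge L P u s.1)
  -- regularity
  have hreg : ∀ h : MK, (∀ P : Place ℂ MK, Ge P (-(∑ j : J, nu P (x j.1))) h) →
      ∀ z ∈ Om, Pool.Agent.Y221.AP.Reg (F * h) z := by
    intro h' hh z1 hz1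
    obtain ⟨v, hv, hvD⟩ := Pool.Agent.Q224.EC.t_plc z1 hz1
    rw [← hv, reg_iff_ge]
    have h1 := ord_all (a := fun j : J => C.a j.1) (u := fun j : J => x j.1)
      (e := fun i (j : J) => C.e i j.1) (m := C.m) (fun j => C.he j.1) C.hm
      (f := fun i (j : J) => C.f i j.1) (fun i j => C.hf i j.1) hL (fun i => (h i).1) hκ hz v
    have h2 := reg (d := 1) (a := fun (j : J) _ => (1 : ℂ)) (b := fun (j : J) l => -(C.a j.1 l))
      (u := fun j : J => x j.1) (f := fun j : J => ∑ i, C.f i j.1) (c := fun j : J => c j.1)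
      (M := M) (μ := 1) (fun j => by have := C.hq j.1; omega) (fun j => indep (C.ha j.1)) hu hL
      (by rw [mul_one]; exact_mod_cast hM') (fun j => hc j.1) (fun j _ => j)
      (fun j => ⟨0, rfl⟩) v h1.1 h1.2 (hh v) (fun _ => MDer) (fun _ => hvD)
    simp only [jd_one] at h2
    convert h2 using 1
    rw [hF]
    unfold RR
    ring
  -- integrality
  obtain ⟨T, hT⟩ : ∃ T : Finset MK, T = (Finset.univ.image fun j : J => x j.1) ∪
      (Finset.univ.image fun j : J => MDer (x j.1)) ∪ (Finset.univ.image z) := ⟨_, rfl⟩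
  obtain ⟨L, hLd'⟩ : ∃ L : IntermediateField ℂ MK,
    L = IntermediateField.adjoin ℂ (T : Set MK) := ⟨_, rfl⟩
  have hTL : ∀ y ∈ T, y ∈ L := by
    intro y hy
    rw [hLd']
    exact IntermediateField.subset_adjoin _ _ hy
  have hxL : ∀ j : J, x j.1 ∈ L := fun j => hTL _ (by
    rw [hT]
    exact Finset.mem_union_left _ (Finset.mem_union_left _
      (Finset.mem_image_of_mem _ (Finset.mem_univ j))))
  have hyL : ∀ j : J, MDer (x j.1) ∈ L := fun j => hTL _ (by
    rw [hT]
    exact Finset.mem_union_left _ (Finset.mem_union_right _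
      (Finset.mem_image_of_mem _ (Finset.mem_univ j))))
  have hzL : ∀ i, z i ∈ L := fun i => hTL _ (by
    rw [hT]
    exact Finset.mem_union_right _ (Finset.mem_image_of_mem _ (Finset.mem_univ i)))
  have hess : Algebra.EssFiniteType ℂ L := by
    rw [IntermediateField.essFiniteType_iff]
    exact ⟨T, hLd'.symm⟩
  obtain ⟨S, hS⟩ := IntermediateField.fg_top ℂ L
  let u' : J → L := fun j => ⟨x j.1, hxL j⟩
  let y' : J → L := fun j => ⟨MDer (x j.1), hyL j⟩
  let z' : Fin r → L := fun i => ⟨z i, hzL i⟩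
  have hu'0 : ∀ j, u' j ≠ 0 := fun j h => hu j (congrArg Subtype.val h)
  have hL'0 : ∀ (j : J) l, lf 1 (-(C.a j.1 l)) (u' j) ≠ 0 := fun j l h =>
    hL j l (congrArg Subtype.val h)
  have hz'0 : ∀ i, z' i ≠ 0 := fun i h' => (h i).1 (congrArg Subtype.val h')
  have hz'eq : ∀ i, z' i ^ C.m i = algebraMap ℂ L (κ i) *
      ∏ j : J, ∏ l, lf 1 (-(C.a j.1 l)) (u' j) ^ C.e i j.1 l := by
    intro i
    apply Subtype.ext
    change z i ^ C.m i = _
    rw [hz i]
    simp only [MulMemClass.coe_mul, SubmonoidClass.coe_finsetProd, SubmonoidClass.coe_pow]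
    rfl
  let g' : J ⊕ ((j : J) × Fin (C.q j.1)) → L :=
    Sum.elim (fun j => u' j) fun s => lf 1 (-(C.a s.1.1 s.2)) (u' s.1)
  let y'' : J ⊕ ((j : J) × Fin (C.q j.1)) → L := Sum.elim y' fun s => y' s.1
  let F' : L := (∏ i, z' i) ^ M *
    ∏ j : J, (y' j / ∏ l, lf 1 (-(C.a j.1 l)) (u' j)) ^ c j.1
  have hF' : ((F' : L) : MK) = F := by
    rw [hF]
    simp only [F', MulMemClass.coe_mul, SubmonoidClass.coe_finsetProd, SubmonoidClass.coe_pow,
      IntermediateField.coe_div]
    rfl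
  have hint : ∀ h : L, (∀ P : Place ℂ L, Ge P (-(∑ j : J, nu P (u' j))) h) →
      IsIntegral (Algebra.adjoin ℂ (Set.range fun j => MDer (g j) / g j)) (F * (h : MK)) := by
    intro h' hh
    have h1 := Pool.Agent.Q149.EC.t_val ℂ L S hS
      (Finset.univ.image fun i : J ⊕ ((j : J) × Fin (C.q j.1)) => y'' i / g' i) (F' * h')
      (fun v hv => by
        rw [reg_iff_ge]
        have hz1 := ord_all (a := fun j : J => C.a j.1) (u := u')
          (e := fun i (j : J) => C.e i j.1) (m := C.m) (fun j => C.he j.1) C.hm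
          (f := fun i (j : J) => C.f i j.1) (fun i j => C.hf i j.1) hL'0 hz'0 hκ hz'eq v
        have h3 := reg_val (a := fun j : J => C.a j.1) (fun j => C.ha j.1) hu'0 hL'0
          (f := fun j : J => ∑ i, C.f i j.1) (c := fun j : J => c j.1) (M := M)
          (fun j => hc j.1) v hz1.1
          (y := y') (fun j => hv _ (Finset.mem_image_of_mem _ (Finset.mem_univ (Sum.inl j))))
          (fun j l => hv _ (Finset.mem_image_of_mem _ (Finset.mem_univ
            (Sum.inr ⟨j, l⟩ : J ⊕ ((j : J) × Fin (C.q j.1))))))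
          (hh v)
        convert h3 using 1
        simp only [F']
        ring)
    have h2 := int_up L _ (Set.range fun j => MDer (g j) / g j) (fun b hb => by
      rw [Finset.mem_coe, Finset.mem_image] at hb
      obtain ⟨i, -, rfl⟩ := hb
      refine ⟨i, ?_⟩
      rw [IntermediateField.coe_div]
      rcases i with j | s
      · rfl
      · change MDer (lf 1 (-(C.a s.1.1 s.2)) (x s.1.1)) / _ = _
        rw [der_lf, map_one, one_mul]
        rfl) h1
    rw [MulMemClass.coe_mul, hF'] at h2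
    exact h2
  have hmain := ana g hg0 F hF0 (fun z1 hz1 => by
      have := hreg 1 (fun P => Ge.one.mono (hge1 MK P fun j => x j.1)) z1 hz1
      rwa [mul_one] at this) (fun i => hreg (g i) fun P => hgg MK P (fun j => x j.1) i) (by
      have := hint 1 (fun P => Ge.one.mono (hge1 L P u'))
      rwa [OneMemClass.coe_one, mul_one] at this) (fun i => by
      have := hint (g' i) (fun P => hgg L P u' i)
      have h5 : ((g' i : L) : MK) = g i := by
        rcases i with j | s <;> rfl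
      rwa [h5] at this) (Sum.inl ⟨j, hj⟩)
  exact hmain

end Pool.Agent.P8H50.SS
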