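import Pool.Agent.P8H50.SG.Gen

/-!
Special sets over grids (helper50): the local estimate for values with small logarithmic
derivatives.
-/

set_option autoImplicit false

open FF Pool.Agent.W603.LV Pool.Agent.W602.GT

namespace Pool.Agent.P8H50.SS

open Pool.Agent.P8H50.SG

variable {k K : Type} [Field k] [Field K] [Algebra k K]

theorem lf_eq (a : k) (u : K) : lf 1 (-a) u = u - algebraMap k K a := by
  unfold lf
  rw [map_one, one_mul, map_neg, sub_eq_add_neg]

theorem indep {q : ℕ} {a : Fin q → k} (ha : Function.Injective a) (l l' : Fin q) (h : l ≠ l') :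
    (1 : k) * -(a l') ≠ 1 * -(a l) := by
  rw [one_mul, one_mul]
  intro h1
  exact h (ha (neg_injective h1).symm)

theorem ge_inv {P : Place k K} (f : K) (n : ℤ) (h : f ≠ 0 → P.ord f ≤ n) : Ge P (-n) f⁻¹ := by
  by_cases h0 : f = 0
  · rw [h0, inv_zero]
    exact Or.inl rfl
  · right
    rw [P.ord_inv]
    have := h h0
    omega

/-- the local estimate for a column whose logarithmic derivatives are regular -/
theorem col_val {q : ℕ} (a : Fin q → k) (ha : Function.Injective a) (P : Place k K) (u y : K)
    (hL : ∀ l, lf 1 (-(a l)) u ≠ 0) (h1 : P.Reg (y / u))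
    (h2 : ∀ l, P.Reg (y / lf 1 (-(a l)) u)) (hu : u ≠ 0) :
    Ge P (((q : ℤ) - 2) * nu P u) (y / ∏ l, lf 1 (-(a l)) u) := by
  classical
  have hR : (∏ l, lf 1 (-(a l)) u) ≠ 0 := Finset.prod_ne_zero_iff.2 fun l _ => hL l
  have hordR : P.ord (∏ l, lf 1 (-(a l)) u) = ∑ l, P.ord (lf 1 (-(a l)) u) :=
    ord_prod' P _ _ fun l _ => hL l
  have hy : y = y / u * u := (div_mul_cancel₀ y hu).symm
  have h1' : Ge P 0 (y / u) := (reg_iff_ge _ _).1 h1
  rcases le_or_gt 0 (P.ord u) with h0 | h0
  · have hnu : nu P u = 0 := by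
      unfold nu
      exact max_eq_right (by omega)
    rw [hnu, mul_zero]
    by_cases hall : ∀ l, P.ord (lf 1 (-(a l)) u) ≤ 0
    · have h3 : Ge P 0 y := by
        rw [hy]
        have := h1'.mul (ge_of_ord (P := P) (f := u) h0)
        rwa [add_zero] at this
      have h4 : Ge P 0 (∏ l, lf 1 (-(a l)) u)⁻¹ := by
        have := ge_inv (P := P) (∏ l, lf 1 (-(a l)) u) 0 fun _ => by
          rw [hordR]
          exact Finset.sum_nonpos fun l _ => hall l
        rwa [neg_zero] at this
      have := h3.mul h4
      rwa [add_zero, ← div_eq_mul_inv] at this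
    · push Not at hall
      obtain ⟨l0, hl0⟩ := hall
      have hsplit : ∏ l, lf 1 (-(a l)) u =
          lf 1 (-(a l0)) u * ∏ l ∈ Finset.univ.erase l0, lf 1 (-(a l)) u :=
        (Finset.mul_prod_erase _ _ (Finset.mem_univ l0)).symm
      have h3 : Ge P 0 (∏ l ∈ Finset.univ.erase l0, lf 1 (-(a l)) u)⁻¹ := by
        have := ge_inv (P := P) (∏ l ∈ Finset.univ.erase l0, lf 1 (-(a l)) u) 0 fun _ => by
          rw [ord_prod' P _ _ fun l _ => hL l]
          refine Finset.sum_nonpos fun l hl => ?_
          by_contra hcon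
          push Not at hcon
          have hne : l ≠ l0 := (Finset.mem_erase.1 hl).1
          have h5 : lf 1 (-(a l0)) u - lf 1 (-(a l)) u = algebraMap k K (a l - a l0) := by
            rw [lf_eq, lf_eq, map_sub]
            ring
          have h6 : Ge P 1 (algebraMap k K (a l - a l0)) := by
            rw [← h5]
            exact (ge_of_ord (by omega)).sub (ge_of_ord (by omega))
          have h7 : a l - a l0 ≠ 0 := sub_ne_zero.2 fun h => hne (ha h)
          have h8 := ord_of_ge ((_root_.map_ne_zero _).2 h7) h6
          rw [P.ord_const h7] at h8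
          omega
        rwa [neg_zero] at this
      have h4 := ((reg_iff_ge _ _).1 (h2 l0)).mul h3
      rw [add_zero] at h4
      rw [hsplit]
      convert h4 using 1
      have := hL l0
      field_simp
  · have hnu : nu P u = -P.ord u := by
      unfold nu
      exact max_eq_left (by omega)
    have hLa : ∀ l, P.ord (lf 1 (-(a l)) u) = -(nu P u) := by
      intro l
      by_cases hb : a l = 0
      · rw [lf_eq, hb, map_zero, sub_zero, hnu]
        ring
      · have h3 := P.ord_add_eq (f := u) (g := algebraMap k K (-(a l))) hu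
          ((_root_.map_ne_zero _).2 (neg_ne_zero.2 hb))
          (by rw [P.ord_const (neg_ne_zero.2 hb)]; exact h0)
        rw [lf_eq, sub_eq_add_neg, ← map_neg, h3.2, hnu]
        ring
    have h3 : Ge P (-(nu P u)) y := by
      rw [hy]
      have := h1'.mul (ge_u P u)
      rwa [zero_add] at this
    have h4 := ge_inv (P := P) (∏ l, lf 1 (-(a l)) u) (-((q : ℤ) * nu P u)) fun _ => by
      rw [hordR, Finset.sum_congr rfl fun l _ => hLa l, Finset.sum_const, Finset.card_univ,
        Fintype.card_fin, nsmul_eq_mul]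
      apply le_of_eq
      ring
    have h5 := h3.mul h4
    rw [← div_eq_mul_inv] at h5
    refine h5.mono ?_
    have := nu_nonneg P u
    nlinarith

end Pool.Agent.P8H50.SS
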