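import Pool.Agent.P8H50.SS.Main
import Pool.Agent.Q239.SF.W4
import Pool.Agent.Q239.SF.W5

/-!
Special sets over grids (helper50): notions of hyperbolicity.
-/

set_option autoImplicit false

namespace Pool.Agent.P8H50.SS

open Pool.Agent.Q103.SF

theorem Grids.tfae {M : ℕ} {K : Type} [Field K] [Algebra ℂ K] {x : Fin (M + 1) → K}
    (h : Grids x) : List.TFAE [KobayashiHyp x, BrodyHyp x, PicardHyp x, NoMero x, NoElliptic x,
      AlgHyp x, AllGeneral x, GeomHyp x, lowCurves x = ∅] :=
  SF.tfae Pool.Agent.Q95.SF.wei Pool.Agent.Q239.SF.ptd Pool.Agent.Q239.SF.kob h.special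

end Pool.Agent.P8H50.SS
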