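import Pool.Agent.P8H50.SS.Spec
import Pool.Agent.P8H50.SS.Gen
import Pool.Agent.TH466.QG.Strong
import Pool.Agent.W603.LV.Root
import Pool.Agent.W603.PV.Hgt
import Pool.Agent.Y216.Point

/-!
Special sets over grids (helper50): subvarieties and degrees of curves off a proper closed subset.
-/

set_option autoImplicit false

open FF Pool.Agent.W603.LV Pool.Agent.W602.GT

namespace Pool.Agent.P8H50.SS

open Pool.Agent.Y216 (OnVar CurveBound)
open Pool.Agent.TH466.QG (SubOf StronglyGeneral)
open Pool.Agent.W603.PV (pht pht_le)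

namespace Cmb

variable {k : Type} [Field k] {n r : ℕ} {C : Cmb k n r} {K : Type} [Field K] [Algebra k K]
  {x : Fin n → K} {z : Fin r → K}

/-- the field of a subvariety is algebraic over the field of the specialised functions -/
theorem alg_up {L : Type} [Field L] [Algebra k L] {M : ℕ} {f : Fin (M + 1) → L} {i1 : Fin (M + 1)}
    (hf1 : f i1 ≠ 0) (hgenf : coords k f = ⊤) {x' : Fin n → L} {D : Fin (M + 1) → ℕ}
    {g : Fin (M + 1) → ℕ → MvPolynomial (Fin n) k}
    (hrel : ∀ i, MvPolynomial.aeval x' (g i (D i)) ≠ 0 ∧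
      ∑ j ∈ Finset.range (D i + 1), MvPolynomial.aeval x' (g i j) * (f i / f i1) ^ j = 0) :
    Algebra.IsAlgebraic (IntermediateField.adjoin k (Set.range x')) L := by
  have hz : ∀ i, IsAlgebraic (IntermediateField.adjoin k (Set.range x')) (f i / f i1) := fun i =>
    alg_of_eqn' (hrel i).1 (hrel i).2
  have h1 : (⊤ : IntermediateField k L) = IntermediateField.adjoin k
      (Set.range fun i => f i / f i1) := (Pool.Agent.TH466.QG.adjoin_norm hgenf hf1).symm
  have h2 : IntermediateField.adjoin (IntermediateField.adjoin k (Set.range x'))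
      (Set.range fun i => f i / f i1) = ⊤ := by
    rw [eq_top_iff]
    intro a _
    have h3 : a ∈ IntermediateField.adjoin k (Set.range fun i => f i / f i1) := by
      rw [← h1]
      exact IntermediateField.mem_top
    have h4 : IntermediateField.adjoin k (Set.range fun i => f i / f i1) ≤
        (IntermediateField.adjoin (IntermediateField.adjoin k (Set.range x'))
          (Set.range fun i => f i / f i1)).restrictScalars k := by
      rw [IntermediateField.adjoin_le_iff]
      exact IntermediateField.subset_adjoin _ _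
    exact h4 h3
  have h3 : Algebra.IsAlgebraic (IntermediateField.adjoin k (Set.range x'))
      (IntermediateField.adjoin (IntermediateField.adjoin k (Set.range x'))
        (Set.range fun i => f i / f i1)) :=
    IntermediateField.isAlgebraic_adjoin (by
      rintro _ ⟨i, rfl⟩
      exact (hz i).isIntegral)
  rw [h2] at h3
  exact ⟨fun a => by
    have h4 := h3.isAlgebraic (⟨a, IntermediateField.mem_top⟩ :
      (⊤ : IntermediateField (IntermediateField.adjoin k (Set.range x')) L))
    exact (isAlgebraic_algebraMap_iff (R := IntermediateField.adjoin k (Set.range x'))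
      (algebraMap (⊤ : IntermediateField (IntermediateField.adjoin k (Set.range x')) L)
        L).injective).2 h4⟩

/-- **Subvarieties.** -/
theorem strong [IsAlgClosed k] [CharZero k] (h : C.Pt x z)
    (halg : Algebra.IsAlgebraic (IntermediateField.adjoin k (Set.range x)) K) {M : ℕ}
    {v : Fin (M + 1) → K} (hv : v ≠ 0) (hgen : coords k v = ⊤) : StronglyGeneral k v := by
  obtain ⟨i1, G, D, g, hG, hvG, hmain⟩ := special_main h halg hv hgen
  refine ⟨G, hG, hvG, ?_⟩
  intro L _ _ d f hf hfG hd htr
  have hon : OnVar k v f := ⟨by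
    obtain ⟨i, hi⟩ := Function.ne_iff.1 hf.ne
    exact ⟨i, hi⟩, hf.spec⟩
  obtain ⟨hf1, x', z', hz, hrel⟩ := hmain L f hon hfG
  exact general hz (alg_up hf1 hf.gen hrel) hd htr

/-- **Degrees of curves.** -/
theorem curveBound [IsAlgClosed k] [CharZero k] (h : C.Pt x z)
    (halg : Algebra.IsAlgebraic (IntermediateField.adjoin k (Set.range x)) K) {M : ℕ}
    {v : Fin (M + 1) → K} (hv : v ≠ 0) (hgen : coords k v = ⊤) : CurveBound k v := by
  classical
  obtain ⟨C0, hC⟩ := C.bound
  obtain ⟨i1, G, D, g, hG, hvG, hmain⟩ := special_main h halg hv hgen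
  obtain ⟨A, hA⟩ : ∃ A : ℕ, A = ∑ i, ∑ j ∈ Finset.range (D i + 1),
    (g i j).totalDegree * (n * C0) := ⟨_, rfl⟩
  refine ⟨G, hG, hvG, A, ?_⟩
  intro L _ _ _ f hf hfG
  obtain ⟨hf1, x', z', hz, hrel⟩ := hmain L f hf hfG
  set χ : ℤ := max (canDeg k L) 0 with hχ
  have hχ0 : 0 ≤ χ := le_max_right _ _
  have h1 : ∀ j, hgt k (x' j) ≤ C0 * χ := hC L x' z' hz
  have h2 : ∀ i j, hgt k (MvPolynomial.aeval x' (g i j)) ≤
      ((g i j).totalDegree * (n * C0) : ℕ) * χ := by
    intro i j
    refine (hgt_mvpoly (k := k) x' (g i j)).trans ?_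
    have h3 : ∑ c, hgt k (x' c) ≤ (n : ℤ) * (C0 * χ) := by
      refine (Finset.sum_le_sum fun c _ => h1 c).trans (le_of_eq ?_)
      rw [Finset.sum_const, Finset.card_univ, nsmul_eq_mul, Fintype.card_fin]
    refine (mul_le_mul_of_nonneg_left h3 (Nat.cast_nonneg (α := ℤ) (g i j).totalDegree)).trans
      (le_of_eq ?_)
    push_cast
    ring
  have h4 : ∀ i, hgt k (f i / f i1) ≤ (∑ j ∈ Finset.range (D i + 1),
      (g i j).totalDegree * (n * C0) : ℕ) * χ := by
    intro i
    refine (hgt_root (k := k) (fun j => MvPolynomial.aeval x' (g i j)) (hrel i).1 _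
      (hrel i).2).trans ?_
    rw [add_comm, ← Finset.sum_range_succ (fun j => hgt k (MvPolynomial.aeval x' (g i j)))]
    refine (Finset.sum_le_sum fun j _ => h2 i j).trans (le_of_eq ?_)
    rw [← Finset.sum_mul]
    push_cast
    rfl
  refine (pht_le (k := k) f hf1).trans ((Finset.sum_le_sum fun j _ => h4 j).trans (le_of_eq ?_))
  rw [← Finset.sum_mul, hA]
  push_cast
  rfl

end Cmb

/-- the class is closed under isomorphisms -/
theorem IsGridCover.of_surj {k K L : Type} [Field k] [Field K] [Algebra k K] [Field L]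
    [Algebra k L] (σ : K →ₐ[k] L) (hσ : Function.Surjective σ) (h : IsGridCover k K) :
    IsGridCover k L := by
  obtain ⟨n, r, m, P, x, z, h1, h2, h3, h4, h5, h6⟩ := h
  refine ⟨n, r, m, P, fun j => σ (x j), fun i => σ (z i), h1, h2, h3, h4, fun i => ⟨?_, ?_⟩, ?_⟩
  · exact (_root_.map_ne_zero σ).2 (h5 i).1
  · rw [← map_pow, (h5 i).2, map_prod]
    exact Finset.prod_congr rfl fun j _ => (Polynomial.aeval_algHom_apply σ (x j) (P i j)).symm
  · refine ⟨fun u => ?_⟩
    obtain ⟨t, rfl⟩ := hσ u
    obtain ⟨D, g, hg1, hg2⟩ := alg_eqn' (x := x) (h6.isAlgebraic t)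
    have h7 : ∀ G : MvPolynomial (Fin n) k, MvPolynomial.aeval (fun j => σ (x j)) G =
        σ (MvPolynomial.aeval x G) := by
      intro G
      rw [← AlgHom.comp_apply, MvPolynomial.comp_aeval]
    refine alg_of_eqn' (D := D) (g := g) ?_ ?_
    · rw [h7]
      exact (_root_.map_ne_zero σ).2 hg1
    · simp only [h7]
      rw [← map_zero σ, ← hg2, map_sum]
      exact Finset.sum_congr rfl fun j _ => by rw [map_mul, map_pow]

end Pool.Agent.P8H50.SS
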